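import Mathlib
import Pool.Graph.R_pool_sql_team_seeded_3997aac3.Q77.Few.Mod

/-!
# Random numbers with a spread residue

This follows the module `Q77.Few.Mod` of the library, for a random number `Y = H n / s ^ n + T n` with an
integral head `H n` whose residue modulo `Q ^ n` is spread given the tail `T n`.
-/

set_option autoImplicit false

open Finset Filter Topology MeasureTheory
open scoped ENNReal

namespace Pool.Agent.H608.Fd

open Pool.Agent.Q77.Cos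
open Pool.Agent.Q77.Few
open Pool.Agent.H332R2.Lit (e e_add norm_e)

variable {Ω : Type*} [MeasurableSpace Ω]

/-- the residue of the head is spread given the tail -/
def SpreadAt (μ : Measure Ω) (Q n : ℕ) (H : Ω → ℤ) (T : Ω → ℝ) (p : ℝ≥0∞) : Prop :=
  ∀ (r : ℤ) (S : Set ℝ), MeasurableSet S →
    μ {ω | H ω ≡ r [ZMOD (Q : ℤ) ^ n] ∧ T ω ∈ S} ≤ p * μ {ω | T ω ∈ S}

/-- probability of a large sum -/
lemma bad_gen (b s q a1 w Q : ℕ) (hb : 2 ≤ b) (hs : 2 ≤ s) (hq : 2 ≤ q) (hsq : s = q * a1)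
    (hcop : Nat.Coprime b q) (ha1 : a1 ∣ b ^ w) (hQ : Q ∣ q) (h : ℤ)
    (hh : h ≠ 0) (μ : Measure Ω) [IsProbabilityMeasure μ] (p : ℝ≥0∞) (n : ℕ) (H : Ω → ℤ)
    (T : Ω → ℝ) (hT : Measurable T) (hsp : SpreadAt μ Q n H T p) (Y : Ω → ℝ)
    (hY : ∀ ω, Y ω = H ω / (s : ℝ) ^ n + T ω) (N : ℕ) (hN : q ^ n ≤ N) (ε : ℝ) (hε : 0 < ε) :
    μ {ω | ε * N < ‖W b h N ((b : ℝ) ^ (w * n) * Y ω)‖} ≤
      ENNReal.ofReal (2 * kap b q * |(h : ℝ)| / ε ^ 2) * p := by
  classical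
  obtain ⟨c, hc⟩ := ha1
  have hbw : 0 < b ^ w := Nat.pow_pos (by omega)
  have hc0 : 0 < c := by
    rcases Nat.eq_zero_or_pos c with h1 | h1
    · rw [h1, mul_zero] at hc; omega
    · exact h1
  have ha0 : 0 < a1 := by
    rcases Nat.eq_zero_or_pos a1 with h1 | h1
    · rw [h1, zero_mul] at hc; omega
    · exact h1
  have hccop : Nat.Coprime c q :=
    (Nat.Coprime.pow_left w hcop).coprime_dvd_left ⟨a1, by rw [hc]; ring⟩
  have hqn : 0 < q ^ n := Nat.pow_pos (by omega)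
  have hqnZ : (0 : ℤ) < (q : ℤ) ^ n := by exact_mod_cast hqn
  have hqR : (0 : ℝ) < (q : ℝ) ^ n := by exact_mod_cast hqn
  set X : ℝ := (b : ℝ) ^ (w * n) with hX
  set A : ℕ → Set ℝ := fun k => {t | ε * N < ‖W b h N (X * t + k / (q : ℝ) ^ n)‖} with hA
  have hAm : ∀ k, MeasurableSet (A k) := by
    intro k
    apply IsOpen.measurableSet
    apply isOpen_lt continuous_const
    exact ((cont_W b h N).comp ((continuous_const.mul continuous_id).add continuous_const)).norm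
  set κ : Ω → ℕ := fun ω => (H ω * (c : ℤ) ^ n % (q : ℤ) ^ n).toNat with hκ
  have hκ1 : ∀ ω, ((κ ω : ℕ) : ℤ) = H ω * (c : ℤ) ^ n % (q : ℤ) ^ n := fun ω =>
    Int.toNat_of_nonneg (Int.emod_nonneg _ hqnZ.ne')
  have hκlt : ∀ ω, κ ω < q ^ n := by
    intro ω
    have h1 : ((κ ω : ℕ) : ℤ) < ((q ^ n : ℕ) : ℤ) := by
      rw [hκ1]
      push_cast
      exact Int.emod_lt_of_pos _ hqnZ
    exact_mod_cast h1
  have hW : ∀ ω, W b h N (X * Y ω) = W b h N (X * T ω + ((κ ω : ℕ) : ℝ) / (q : ℝ) ^ n) := by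
    intro ω
    have h1 : X * Y ω = ((H ω * (c : ℤ) ^ n / (q : ℤ) ^ n : ℤ) : ℝ) +
        (X * T ω + ((κ ω : ℕ) : ℝ) / (q : ℝ) ^ n) := by
      rw [hY]
      have h2 : (H ω : ℝ) * (c : ℝ) ^ n = (q : ℝ) ^ n * ((H ω * (c : ℤ) ^ n / (q : ℤ) ^ n : ℤ) : ℝ) +
          ((κ ω : ℕ) : ℝ) := by
        have h3 := Int.mul_ediv_add_emod (H ω * (c : ℤ) ^ n) ((q : ℤ) ^ n)
        rw [← hκ1] at h3
        exact_mod_cast h3.symm
      have h3 : X = (a1 : ℝ) ^ n * (c : ℝ) ^ n := by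
        rw [hX, pow_mul, ← mul_pow]
        congr 1
        exact_mod_cast hc
      have h4 : (s : ℝ) ^ n = (q : ℝ) ^ n * (a1 : ℝ) ^ n := by
        rw [← mul_pow]
        congr 1
        exact_mod_cast hsq
      have ha0R : (0 : ℝ) < (a1 : ℝ) ^ n := by
        have : (0 : ℝ) < a1 := by exact_mod_cast ha0
        positivity
      have h5 : X * ((H ω : ℝ) / (s : ℝ) ^ n) = ((H ω : ℝ) * (c : ℝ) ^ n) / (q : ℝ) ^ n := by
        rw [h3, h4]
        field_simp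
      rw [mul_add, h5, h2]
      field_simp
      ring
    rw [h1, W_int]
  have hsub : {ω | ε * N < ‖W b h N (X * Y ω)‖} ⊆
      ⋃ k ∈ range (q ^ n), {ω | κ ω = k ∧ T ω ∈ A k} := by
    intro ω hω
    simp only [Set.mem_iUnion]
    refine ⟨κ ω, mem_range.2 (hκlt ω), rfl, ?_⟩
    rw [hA, Set.mem_ofPred_eq, ← hW ω]
    exact hω
  have hone : ∀ k ∈ range (q ^ n), μ {ω | κ ω = k ∧ T ω ∈ A k} ≤ p * μ {ω | T ω ∈ A k} := by
    intro k _
    by_cases hk : ∃ ω0, κ ω0 = k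
    · obtain ⟨ω0, hω0⟩ := hk
      refine le_trans (measure_mono ?_) (hsp (H ω0) (A k) (hAm k))
      rintro ω ⟨h1, h2⟩
      refine ⟨?_, h2⟩
      have h3 : H ω * (c : ℤ) ^ n ≡ H ω0 * (c : ℤ) ^ n [ZMOD (q : ℤ) ^ n] := by
        have h4 : ((κ ω : ℕ) : ℤ) = ((κ ω0 : ℕ) : ℤ) := by rw [h1, hω0]
        rw [hκ1, hκ1] at h4
        exact h4
      have h4 : H ω ≡ H ω0 [ZMOD (q : ℤ) ^ n] := by
        rw [Int.modEq_iff_dvd] at h3 ⊢
        rw [← sub_mul] at h3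
        have h5 : IsCoprime ((q : ℤ) ^ n) ((c : ℤ) ^ n) := by
          apply IsCoprime.pow
          exact (Nat.isCoprime_iff_coprime.2 hccop).symm
        exact h5.dvd_of_dvd_mul_right h3
      exact h4.of_dvd (by exact_mod_cast pow_dvd_pow_of_dvd hQ n)
    · have : {ω | κ ω = k ∧ T ω ∈ A k} = ∅ := by
        ext ω
        simp only [Set.mem_ofPred_eq, Set.mem_empty_iff_false, iff_false]
        rintro ⟨h1, _⟩
        exact hk ⟨ω, h1⟩
      rw [this, measure_empty]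
      exact zero_le
  have hsum : ∑ k ∈ range (q ^ n), μ {ω | T ω ∈ A k} ≤
      ENNReal.ofReal (2 * kap b q * |(h : ℝ)| / ε ^ 2) := by
    have hm : ∀ k, MeasurableSet {ω | T ω ∈ A k} := fun k => hT (hAm k)
    have h1 : ∀ k ∈ range (q ^ n), μ {ω | T ω ∈ A k} =
        ∫⁻ ω, {ω | T ω ∈ A k}.indicator (fun _ => (1 : ℝ≥0∞)) ω ∂μ := by
      intro k _
      rw [lintegral_indicator (hm k)]
      simp
    rw [Finset.sum_congr rfl h1, ← lintegral_finsetSum]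
    · calc _ ≤ ∫⁻ _ω : Ω, ENNReal.ofReal (2 * kap b q * |(h : ℝ)| / ε ^ 2) ∂μ := by
            apply lintegral_mono
            intro ω
            have h4 := few b q hb hq hcop h hh n N hN ε hε (X * T ω)
            have h5 : ∑ k ∈ range (q ^ n), {ω | T ω ∈ A k}.indicator (fun _ => (1 : ℝ≥0∞)) ω =
                (((range (q ^ n)).filter (fun k : ℕ => ε * N <
                  ‖W b h N (X * T ω + k / (q : ℝ) ^ n)‖)).card : ℝ≥0∞) := by
              rw [Finset.card_filter]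
              push_cast
              refine Finset.sum_congr rfl fun k _ => ?_
              simp only [Set.indicator_apply, Set.mem_ofPred_eq, hA]
            simp only
            rw [h5, ← ENNReal.ofReal_natCast]
            exact ENNReal.ofReal_le_ofReal h4
        _ = _ := by simp
    · intro k _
      exact measurable_const.indicator (hm k)
  calc _ ≤ μ (⋃ k ∈ range (q ^ n), {ω | κ ω = k ∧ T ω ∈ A k}) := measure_mono hsub
    _ ≤ ∑ k ∈ range (q ^ n), μ {ω | κ ω = k ∧ T ω ∈ A k} := measure_biUnion_finset_le _ _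
    _ ≤ ∑ k ∈ range (q ^ n), p * μ {ω | T ω ∈ A k} := Finset.sum_le_sum hone
    _ = p * ∑ k ∈ range (q ^ n), μ {ω | T ω ∈ A k} := by rw [Finset.mul_sum]
    _ ≤ p * ENNReal.ofReal (2 * kap b q * |(h : ℝ)| / ε ^ 2) := by gcongr
    _ = _ := mul_comm _ _

theorem ae_gen (s : ℕ) (hs : 2 ≤ s) (Q : ℕ) (hQ2 : 2 ≤ Q) (hQs : Q ∣ s)
    (μ : Measure Ω) [IsProbabilityMeasure μ] (Y : Ω → ℝ) (H : ℕ → Ω → ℤ) (T : ℕ → Ω → ℝ)
    (p : ℕ → ℝ≥0∞) (hT : ∀ n, Measurable (T n)) (hsp : ∀ n, SpreadAt μ Q n (H n) (T n) (p n))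
    (hY : ∀ n ω, Y ω = H n ω / (s : ℝ) ^ n + T n ω) (hsum : ∑' n, p n ≠ ∞) :
    ∀ᵐ ω ∂μ, ∀ b : ℕ, 2 ≤ b → b.Coprime Q → Wn b (Y ω) := by
  rw [ae_all_iff]
  intro b
  by_cases hb : 2 ≤ b ∧ b.Coprime Q
  swap
  · exact Filter.Eventually.of_forall fun d h1 h2 => absurd ⟨h1, h2⟩ hb
  obtain ⟨hb2, hbQ⟩ := hb
  obtain ⟨q, a1, w, hsq, hcop, ha1⟩ := decomp b s (by omega)
  have hQq : Q ∣ q := by
    have h1 : Nat.Coprime Q a1 :=
      ((Nat.Coprime.pow_left w hbQ).coprime_dvd_left ha1).symm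
    apply Nat.Coprime.dvd_of_dvd_mul_right h1
    rw [← hsq]
    exact hQs
  have hq0 : 0 < q := by
    rcases Nat.eq_zero_or_pos q with h | h
    · rw [h, zero_mul] at hsq; omega
    · exact h
  have hq2 : 2 ≤ q := hQ2.trans (Nat.le_of_dvd hq0 hQq)
  have hqs : q ≤ s := Nat.le_of_dvd (by omega) ⟨a1, hsq⟩
  have key : ∀ (h : ℤ) (R : ℕ), h ≠ 0 → 1 ≤ R → ∀ᵐ d ∂μ, ∀ᶠ n : ℕ in atTop,
      ∀ r < s ^ 2 * R, ‖W b h (s ^ n + r * s ^ n / R)
        ((b : ℝ) ^ (w * n) * Y d)‖ ≤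
        1 / (R : ℝ) * (s ^ n + r * s ^ n / R : ℕ) := by
    intro h R hh hR
    have hR0 : (0 : ℝ) < R := by exact_mod_cast hR
    set G : ℕ → Set Ω := fun n => ⋃ r ∈ range (s ^ 2 * R),
      {d | 1 / (R : ℝ) * (s ^ n + r * s ^ n / R : ℕ) < ‖W b h (s ^ n + r * s ^ n / R)
        ((b : ℝ) ^ (w * n) * Y d)‖} with hG
    set K : ℝ≥0∞ := ENNReal.ofReal (2 * kap b q * |(h : ℝ)| / (1 / (R : ℝ)) ^ 2) with hK
    have h1 : ∀ n, μ (G n) ≤ (s ^ 2 * R : ℕ) * K * p n := by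
      intro n
      calc μ (G n) ≤ ∑ r ∈ range (s ^ 2 * R), μ {d | 1 / (R : ℝ) * (s ^ n + r * s ^ n / R : ℕ) <
              ‖W b h (s ^ n + r * s ^ n / R) ((b : ℝ) ^ (w * n) * Y d)‖} :=
              measure_biUnion_finset_le _ _
        _ ≤ ∑ _r ∈ range (s ^ 2 * R), K * p n := by
            apply Finset.sum_le_sum
            intro r _
            have h2 : q ^ n ≤ s ^ n := Nat.pow_le_pow_left hqs n
            exact bad_gen b s q a1 w Q hb2 hs hq2 hsq hcop ha1 hQq h hh μ (p n) n (H n) (T n)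
              (hT n) (hsp n) Y (hY n) _ (h2.trans (Nat.le_add_right _ _)) _ (by positivity)
        _ = _ := by rw [sum_const, card_range, nsmul_eq_mul, mul_assoc]
    have h2 : ∑' n, μ (G n) ≠ ∞ := by
      apply ne_top_of_le_ne_top _ (ENNReal.tsum_le_tsum h1)
      rw [ENNReal.tsum_mul_left]
      exact ENNReal.mul_ne_top (ENNReal.mul_ne_top (ENNReal.natCast_ne_top _)
        ENNReal.ofReal_ne_top) hsum
    filter_upwards [ae_eventually_notMem h2] with d hd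
    refine hd.mono fun n hn r hr => ?_
    by_contra hcon
    push Not at hcon
    apply hn
    simp only [hG, Set.mem_iUnion]
    exact ⟨r, mem_range.2 hr, hcon⟩
  have key2 : ∀ᵐ d ∂μ, ∀ (h : ℤ) (R : ℕ), h ≠ 0 → 1 ≤ R → ∀ᶠ n : ℕ in atTop,
      ∀ r < s ^ 2 * R, ‖W b h (s ^ n + r * s ^ n / R)
        ((b : ℝ) ^ (w * n) * Y d)‖ ≤
        1 / (R : ℝ) * (s ^ n + r * s ^ n / R : ℕ) := by
    rw [ae_all_iff]
    intro h
    rw [ae_all_iff]
    intro R
    by_cases hh : h ≠ 0 ∧ 1 ≤ R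
    · filter_upwards [key h R hh.1 hh.2] with d hd _ _
      exact hd
    · exact Filter.Eventually.of_forall fun d h1 h2 => absurd ⟨h1, h2⟩ hh
  filter_upwards [key2] with d hd _ _ h hh δ hδ
  obtain ⟨R, hR⟩ := exists_nat_gt (4 / δ)
  have hR0 : (0 : ℝ) < R := lt_trans (by positivity) hR
  have hR1 : 1 ≤ R := by exact_mod_cast hR0
  obtain ⟨n0, hn0⟩ := eventually_atTop.1 ((hd h R hh hR1).and (ev_pow R w))
  filter_upwards [eventually_ge_atTop (s ^ (n0 + 1)), eventually_ge_atTop R] with N hN1 hN2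
  obtain ⟨n, hn⟩ : ∃ n, Nat.log s N = n + 1 := by
    refine ⟨Nat.log s N - 1, ?_⟩
    have h1 : n0 + 1 ≤ Nat.log s N := Nat.le_log_of_pow_le (by omega) hN1
    omega
  have h1 : s ^ (n + 1) ≤ N := by
    rw [← hn]
    exact Nat.pow_log_le_self s (by
      have : 0 < s ^ (n0 + 1) := Nat.pow_pos (by omega)
      omega)
  have h2 : N < s ^ (n + 2) := by
    have := Nat.lt_pow_succ_log_self (by omega : 1 < s) N
    rw [hn] at this
    exact this
  have h3 : n0 ≤ n := by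
    have h1 : n0 + 1 ≤ Nat.log s N := Nat.le_log_of_pow_le (by omega) hN1
    omega
  obtain ⟨hn1, hn2⟩ := hn0 n h3
  have hsn : 2 ^ n ≤ s ^ n := Nat.pow_le_pow_left hs n
  have hwn : R * (w * n + 1) ≤ s ^ n := hn2.trans hsn
  have hwn1 : w * n + 1 ≤ s ^ n := le_trans (Nat.le_mul_of_pos_left _ (by omega)) hwn
  have hss : 2 * s ^ n ≤ s ^ (n + 1) := by
    rw [pow_succ']
    exact Nat.mul_le_mul_right _ hs
  obtain ⟨N', hN'⟩ : ∃ N', N = w * n + N' := ⟨N - w * n, by omega⟩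
  have h4 : s ^ n ≤ N' := by omega
  have h5 : N' < s ^ 2 * s ^ n := by
    rw [← pow_add, add_comm 2 n]
    omega
  obtain ⟨r, hr, h6, h7⟩ := near_scale (s ^ n) (s ^ 2) R N' (Nat.pow_pos (by omega)) hR1 h4 h5
  have h8 := hn1 r hr
  have h9 := W_step b h _ N' h6 ((b : ℝ) ^ (w * n) * Y d)
  have h10 : ‖W b h N (Y d)‖ ≤ (w * n : ℕ) +
      ‖W b h N' ((b : ℝ) ^ (w * n) * Y d)‖ := by
    rw [hN', W_split]
    exact (norm_add_le _ _).trans (add_le_add (W_bound _ _ _ _) le_rfl)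
  have h11 : ((s ^ n + r * s ^ n / R : ℕ) : ℝ) ≤ N' := by exact_mod_cast h6
  have h12 : (N' : ℝ) ≤ N := by rw [hN']; push_cast; linarith [(by positivity : (0 : ℝ) ≤ w * n)]
  have h13 : 1 / (R : ℝ) * (s ^ n + r * s ^ n / R : ℕ) ≤ 1 / (R : ℝ) * N := by
    gcongr
    exact_mod_cast h11.trans h12
  have h14 : (N' : ℝ) / R ≤ N / R := by gcongr
  have h15 : ((w * n : ℕ) : ℝ) + 1 ≤ N / R := by
    rw [le_div_iff₀ hR0]
    have h16 : ((R * (w * n + 1) : ℕ) : ℝ) ≤ N := by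
      have : R * (w * n + 1) ≤ N := by omega
      exact_mod_cast this
    push_cast at h16 ⊢
    linarith
  have h17 : (4 : ℝ) / R ≤ δ := by
    rw [div_lt_iff₀ hδ] at hR
    rw [div_le_iff₀ hR0]
    linarith
  have h18 : (4 : ℝ) / R * N ≤ δ * N := by gcongr
  have h19 : (4 : ℝ) / R * N = 1 / R * N + N / R + N / R + N / R := by ring
  have h20 : (0 : ℝ) ≤ N / R := by positivity
  linarith

end Pool.Agent.H608.Fd
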