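import Pool.Agent.H608.Fd.Val

/-!
# One sparse set of deleted terms for all binomial series of `√2`
-/

set_option autoImplicit false

open Finset Filter Topology MeasureTheory

namespace Pool.Agent.H608.Fd

open Pool.Agent.Q77.Few (Wn)

lemma coprime_Qp (α : ℚ) (p b : ℕ) (hp : p.Prime) (hb : ¬ p ∣ b) : b.Coprime (Qp α p) := by
  unfold Qp
  exact ((Nat.Prime.coprime_iff_not_dvd hp).2 hb).symm.pow_right _

lemma tsum_EE (ω : ∀ l, Fin (Mw l)) (r : ℕ → ℚ) :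
    ∑' l, (tm r l ω : ℝ) = ∑' k, (EE ω).indicator (fun k => (r k : ℝ)) k := by
  have h1 := tsum_range (g := fun l => idx l (ω l)) (fun k => (r k : ℝ)) (idx_inj ω)
  have h2 := tsum_subtype (EE ω) (fun k => (r k : ℝ))
  rw [← h2]
  exact h1.symm

lemma EE_infinite (ω : ∀ l, Fin (Mw l)) : (EE ω).Infinite :=
  Set.infinite_range_of_injective (idx_inj ω)

lemma tsum_compl (α : ℚ) (h0 : 0 < α) (h2 : α < 2) (E : Set ℕ) :
    ∑' k, (Eᶜ).indicator (fun k => (term α k : ℝ)) k =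
      Real.sqrt 2 - ∑' k, E.indicator (fun k => (term α k : ℝ)) k := by
  have h1 := hasSum_term α h0 h2
  have h3 := (h1.summable.indicator E).hasSum
  have h4 := h1.sub h3
  rw [← h4.tsum_eq]
  refine tsum_congr fun k => ?_
  by_cases hk : k ∈ E
  · rw [Set.indicator_of_notMem (by simpa using hk), Set.indicator_of_mem hk, sub_self]
  · rw [Set.indicator_of_mem (by simpa using hk), Set.indicator_of_notMem hk, sub_zero]

theorem exists_E (S : Set ℝ) (hS : S.Countable) : ∃ E : Set ℕ, E.Infinite ∧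
    (∀ n, {k : ℕ | k ∈ E ∧ k < n}.ncard ≤ Nat.log 2 (Nat.log 2 n) + 2) ∧
    ∀ α : ℚ, 0 < α → α < 2 → ∀ b : ℕ, 2 ≤ b → (∃ p : ℕ, p.Prime ∧ p ∣ α.den ∧ ¬ p ∣ b) →
      Wn b (∑' k, (Eᶜ).indicator (fun k => (term α k : ℝ)) k) ∧
      ∀ y ∈ S, Wn b (y + ∑' k, E.indicator (fun k => (term α k : ℝ)) k) := by
  have key1 : ∀ᵐ ω ∂μ, ∀ (α : ℚ) (p : ℕ), (0 < α ∧ α < 2 ∧ p.Prime ∧ p ∣ α.den) → ∀ b : ℕ, 2 ≤ b →
      b.Coprime (Qp α p) → Wn b (YY (fun k => -term α k) (Real.sqrt 2) ω) := by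
    rw [ae_all_iff]
    intro α
    rw [ae_all_iff]
    intro p
    by_cases h : 0 < α ∧ α < 2 ∧ p.Prime ∧ p ∣ α.den
    · filter_upwards [((pseq α h.1 h.2.1 p h.2.2.1 h.2.2.2).neg).ae (Real.sqrt 2)] with ω hω _
      exact hω
    · exact Filter.Eventually.of_forall fun ω h1 => absurd h1 h
  have key2 : ∀ᵐ ω ∂μ, ∀ y ∈ S, ∀ (α : ℚ) (p : ℕ), (0 < α ∧ α < 2 ∧ p.Prime ∧ p ∣ α.den) →
      ∀ b : ℕ, 2 ≤ b → b.Coprime (Qp α p) → Wn b (YY (term α) y ω) := by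
    rw [ae_ball_iff hS]
    intro y _
    rw [ae_all_iff]
    intro α
    rw [ae_all_iff]
    intro p
    by_cases h : 0 < α ∧ α < 2 ∧ p.Prime ∧ p ∣ α.den
    · filter_upwards [(pseq α h.1 h.2.1 p h.2.2.1 h.2.2.2).ae y] with ω hω _
      exact hω
    · exact Filter.Eventually.of_forall fun ω h1 => absurd h1 h
  obtain ⟨ω, h1, h2⟩ := (key1.and key2).exists
  refine ⟨EE ω, EE_infinite ω, card_EE ω, ?_⟩
  rintro α ha0 ha2 b hb ⟨p, hp, hpd, hpb⟩
  refine ⟨?_, ?_⟩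
  · have h3 := h1 α p ⟨ha0, ha2, hp, hpd⟩ b hb (coprime_Qp α p b hp hpb)
    have h4 : YY (fun k => -term α k) (Real.sqrt 2) ω =
        ∑' k, ((EE ω)ᶜ).indicator (fun k => (term α k : ℝ)) k := by
      rw [tsum_compl α ha0 ha2, ← tsum_EE, YY]
      unfold tm
      push_cast
      rw [tsum_neg]
      ring
    rwa [h4] at h3
  · intro y hy
    have h3 := h2 y hy α p ⟨ha0, ha2, hp, hpd⟩ b hb (coprime_Qp α p b hp hpb)
    rw [YY, tsum_EE] at h3
    exact h3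

end Pool.Agent.H608.Fd
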