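import Pool.Agent.H608.Fd.Few
import Pool.Agent.H607.Series
import Pool.Agent.H607.Cond

/-!
# Almost all subseries of the binomial series of `√2`
-/

set_option autoImplicit false

open Finset Filter Topology MeasureTheory

namespace Pool.Agent.H608.Fd

open Pool.Agent.Q77.Few (Wn)
open Pool.Agent.W206.ND (ee NT AV)
open Pool.Agent.H607 (Terms RandomSet ser cond_log)

section

variable {p : ℕ} [hp : Fact p.Prime]

lemma norm_spr (α : ℚ) : padicNorm p (spr α p : ℚ) = 1 := by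
  rw [padicNorm.nat_eq_one_iff]
  exact Nat.not_dvd_ordCompl hp.out (s_ne α)

lemma s_eq (α : ℚ) (p : ℕ) : 8 * α.den ^ 3 = p ^ (8 * α.den ^ 3).factorization p * spr α p :=
  (Nat.ordProj_mul_ordCompl_eq_self _ p).symm

/-- the shape of a term -/
lemma shape (α : ℚ) (h : ℤ) (k e : ℕ) (hk : 1 ≤ k)
    (he : padicNorm p (h * term α k) = (p : ℚ) ^ e) :
    e ≤ (8 * α.den ^ 3).factorization p * k ∧
    ∃ u : ℤ, ¬ (p : ℤ) ∣ u ∧ (p : ℚ) ^ e * ((spr α p : ℚ) ^ k * (h * term α k)) = u := by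
  have hp1 : (1 : ℚ) < p := by exact_mod_cast hp.out.one_lt
  have hp0 : (p : ℚ) ≠ 0 := by linarith
  set a := (8 * α.den ^ 3).factorization p with ha
  obtain ⟨z, hz⟩ := term_int α k k hk le_rfl
  have hz' : h * term α k * ((p : ℚ) ^ (a * k) * (spr α p : ℚ) ^ k) = ((h * z : ℤ) : ℚ) := by
    push_cast
    rw [← hz, s_eq α p]
    push_cast
    rw [← ha, mul_pow, ← pow_mul]
    ring
  have hne : h * z ≠ 0 := by
    intro h0
    rw [h0] at hz'
    have h1 : padicNorm p (h * term α k * ((p : ℚ) ^ (a * k) * (spr α p : ℚ) ^ k)) = 0 := by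
      rw [hz']
      simp
    rw [padicNorm.mul, he, padicNorm.mul, norm_pow, norm_pow, norm_spr, padicNorm.padicNorm_p hp.out.one_lt] at h1
    have h2 : (p : ℚ) ^ e ≠ 0 := pow_ne_zero _ hp0
    have h3 : ((p : ℚ)⁻¹) ^ (a * k) ≠ 0 := pow_ne_zero _ (inv_ne_zero hp0)
    simp only [one_pow, mul_one] at h1
    exact (mul_ne_zero h2 h3) h1
  have hfin : FiniteMultiplicity (p : ℤ) (h * z) := by
    rw [Int.finiteMultiplicity_iff]
    refine ⟨?_, hne⟩
    simp only [Int.natAbs_natCast]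
    exact hp.out.one_lt.ne'
  obtain ⟨u, hu, hu'⟩ := hfin.exists_eq_pow_mul_and_not_dvd
  set w := multiplicity (p : ℤ) (h * z) with hw
  have hnu : padicNorm p (u : ℚ) = 1 := (padicNorm.int_eq_one_iff u).2 hu'
  have h1 : padicNorm p (((h * z : ℤ)) : ℚ) = ((p : ℚ)⁻¹) ^ w := by
    rw [hu]
    push_cast
    rw [padicNorm.mul, norm_pow, hnu, mul_one, padicNorm.padicNorm_p hp.out.one_lt]
  have h2 : (p : ℚ) ^ e * ((p : ℚ)⁻¹) ^ (a * k) = ((p : ℚ)⁻¹) ^ w := by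
    rw [← h1, ← hz', padicNorm.mul, he, padicNorm.mul, norm_pow, norm_pow, norm_spr,
      padicNorm.padicNorm_p hp.out.one_lt]
    simp
  have h3 : (p : ℚ) ^ (e + w) = (p : ℚ) ^ (a * k) := by
    have h4 : (p : ℚ) ^ (e + w) = ((p : ℚ) ^ e * ((p : ℚ)⁻¹) ^ (a * k)) * ((p : ℚ) ^ (a * k) * (p : ℚ) ^ w) := by
      rw [inv_pow, pow_add]
      field_simp
    rw [h4, h2, inv_pow]
    field_simp
  have h4 : e + w = a * k := by
    have h5 : p ^ (e + w) = p ^ (a * k) := by exact_mod_cast h3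
    exact Nat.pow_right_injective hp.out.two_le h5
  refine ⟨by omega, u, hu', ?_⟩
  have h5 : (p : ℚ) ^ w ≠ 0 := pow_ne_zero _ hp0
  apply mul_right_cancel₀ h5
  have h6 : ((h * z : ℤ) : ℚ) = (p : ℚ) ^ w * u := by
    rw [hu]
    push_cast
    ring
  calc (p : ℚ) ^ e * ((spr α p : ℚ) ^ k * (h * term α k)) * (p : ℚ) ^ w
      = h * term α k * ((p : ℚ) ^ (a * k) * (spr α p : ℚ) ^ k) := by
        rw [← h4, pow_add]
        ring
    _ = (u : ℚ) * (p : ℚ) ^ w := by rw [hz', h6]; ring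

lemma log_le_self' (k : ℕ) (hk : 1 ≤ k) : Nat.log p (2 * k) ≤ k := by
  have h1 : 2 * k < p ^ (k + 1) := by
    have h2 : k < 2 ^ k := Nat.lt_two_pow_self
    have h3 : 2 ^ (k + 1) ≤ p ^ (k + 1) := Nat.pow_le_pow_left hp.out.two_le _
    rw [pow_succ] at h3
    omega
  have := Nat.log_lt_of_lt_pow (by omega) h1
  omega

/-- the norm is large -/
lemma norm_large (α : ℚ) (hd : p ∣ α.den) (k : ℕ) (hk : 1 ≤ k) :
    (p : ℚ) ^ k ≤ padicNorm p (term α k) := by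
  have hp1 : (1 : ℚ) < p := by exact_mod_cast hp.out.one_lt
  have hα := norm_alpha α hd
  have hz := norm_z α hd
  have h1 := norm_term_ge (p := p) α k
  have h2 : (p : ℚ) ^ (2 * k) ≤ padicNorm p ((2 - α ^ 2) / 8) ^ k := by
    rw [pow_mul]
    exact pow_le_pow_left₀ (by positivity) hz k
  have h3 : (p : ℚ) ^ Nat.log p (2 * k) ≤ (p : ℚ) ^ k :=
    pow_le_pow_right₀ hp1.le (log_le_self' k hk)
  have h4 : (p : ℚ) ^ k * (p : ℚ) ^ k ≤ padicNorm p (term α k) * (p : ℚ) ^ k := by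
    calc (p : ℚ) ^ k * (p : ℚ) ^ k = 1 * (p : ℚ) ^ (2 * k) := by ring
      _ ≤ padicNorm p α * padicNorm p ((2 - α ^ 2) / 8) ^ k := by
        apply mul_le_mul (by linarith) h2 (by positivity) (padicNorm.nonneg _)
      _ ≤ padicNorm p (term α k) * (p : ℚ) ^ Nat.log p (2 * k) := h1
      _ ≤ padicNorm p (term α k) * (p : ℚ) ^ k :=
        mul_le_mul_of_nonneg_left h3 (padicNorm.nonneg _)
  exact le_of_mul_le_mul_right h4 (by positivity)

lemma norm_h (h : ℤ) (hh : h ≠ 0) : (1 : ℚ) ≤ padicNorm p (h : ℚ) * (p : ℚ) ^ h.natAbs := by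
  have hp1 : (1 : ℚ) < p := by exact_mod_cast hp.out.one_lt
  have hp0 : (p : ℚ) ≠ 0 := by linarith
  have h1 : FiniteMultiplicity (p : ℤ) h := by
    rw [Int.finiteMultiplicity_iff]
    refine ⟨?_, hh⟩
    simp only [Int.natAbs_natCast]
    exact hp.out.one_lt.ne'
  obtain ⟨u, hu, hu'⟩ := h1.exists_eq_pow_mul_and_not_dvd
  set w := multiplicity (p : ℤ) h with hw
  have hnu : padicNorm p (u : ℚ) = 1 := (padicNorm.int_eq_one_iff u).2 hu'
  have h2 : padicNorm p (h : ℚ) = ((p : ℚ)⁻¹) ^ w := by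
    rw [hu]
    push_cast
    rw [padicNorm.mul, norm_pow, hnu, mul_one, padicNorm.padicNorm_p hp.out.one_lt]
  have h3 : w ≤ h.natAbs := by
    have h4 : p ^ w ∣ h.natAbs := by
      have h5 : ((p ^ w : ℕ) : ℤ) ∣ h := by
        push_cast
        exact ⟨u, hu⟩
      exact Int.natCast_dvd.1 h5
    have h5 : p ^ w ≤ h.natAbs := Nat.le_of_dvd (Int.natAbs_pos.2 hh) h4
    have h6 : w < p ^ w := Nat.lt_pow_self hp.out.one_lt
    omega
  rw [h2, inv_pow]
  have h4 : (p : ℚ) ^ w ≤ (p : ℚ) ^ h.natAbs := pow_le_pow_right₀ hp1.le h3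
  have h5 : (0 : ℚ) < (p : ℚ) ^ w := by positivity
  rw [inv_mul_eq_div, le_div_iff₀ h5, one_mul]
  exact h4

lemma norm_nat_pow (x : ℚ) (hx : x ≠ 0) (h1 : 1 ≤ padicNorm p x) : ∃ e : ℕ, padicNorm p x = (p : ℚ) ^ e := by
  have hp1 : (1 : ℚ) < p := by exact_mod_cast hp.out.one_lt
  rw [padicNorm.eq_zpow_of_nonzero hx] at h1 ⊢
  have h2 : 0 ≤ -padicValRat p x := by
    by_contra hcon
    push Not at hcon
    have := zpow_lt_one_of_neg₀ hp1 hcon
    linarith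
  exact ⟨(-padicValRat p x).toNat, by rw [← zpow_natCast, Int.toNat_of_nonneg h2]⟩

end

lemma log_sq (p j : ℕ) (hp : 2 ≤ p) : Nat.log p (2 * (j + 1) ^ 2) < 2 * (2 * j + 1) := by
  have h1 : j + 1 ≤ 2 ^ j := Nat.lt_two_pow_self
  have h2 : (j + 1) ^ 2 ≤ 2 ^ (2 * j) := by
    calc (j + 1) ^ 2 ≤ (2 ^ j) ^ 2 := Nat.pow_le_pow_left h1 2
      _ = 2 ^ (2 * j) := by rw [← pow_mul]; ring_nf
  have h3 : 2 * (j + 1) ^ 2 < p ^ (2 * (2 * j + 1)) := by
    calc 2 * (j + 1) ^ 2 ≤ 2 * 2 ^ (2 * j) := Nat.mul_le_mul_left _ h2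
      _ = 2 ^ (2 * j + 1) := by rw [pow_succ]; ring
      _ < 2 ^ (2 * (2 * j + 1)) := Nat.pow_lt_pow_right (by norm_num) (by omega)
      _ ≤ p ^ (2 * (2 * j + 1)) := Nat.pow_le_pow_left hp _
  exact Nat.log_lt_of_lt_pow (by positivity) h3

/-- the arithmetic of the terms -/
theorem terms (α : ℚ) (b p : ℕ) (hp : p.Prime) (hd : p ∣ α.den) (hpb : ¬ p ∣ b)
    (h : ℤ) (hh : h ≠ 0) : ∃ (k e : ℕ → ℕ) (v : ℕ → ℤ) (d m Q : ℕ → ℕ) (A C : ℕ),
      StrictMono k ∧ (∀ i, (k i : ℝ) ≤ Real.exp (C * ((i : ℝ) + 1))) ∧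
      Terms b p (fun k => (h : ℝ) * (term α k : ℝ)) k e v d m Q A := by
  classical
  haveI : Fact p.Prime := ⟨hp⟩
  have hp1 : (1 : ℚ) < p := by exact_mod_cast hp.one_lt
  set i₀ := h.natAbs + 1 with hi₀
  set a := (8 * α.den ^ 3).factorization p with ha
  set s' := spr α p with hs'
  have hkpos : ∀ i, h.natAbs + 1 ≤ (i + i₀) ^ 2 := by
    intro i
    have h1 : (i + i₀) * 1 ≤ (i + i₀) * (i + i₀) := Nat.mul_le_mul_left _ (by omega)
    rw [pow_two]
    omega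
  have hge : ∀ i, 1 ≤ padicNorm p (h * term α ((i + i₀) ^ 2)) := by
    intro i
    have h1 := norm_large (p := p) α hd ((i + i₀) ^ 2) (by have := hkpos i; omega)
    have h2 := norm_h (p := p) h hh
    have h3 : (p : ℚ) ^ h.natAbs ≤ (p : ℚ) ^ ((i + i₀) ^ 2) :=
      pow_le_pow_right₀ hp1.le (by have := hkpos i; omega)
    rw [padicNorm.mul]
    calc (1 : ℚ) ≤ padicNorm p (h : ℚ) * (p : ℚ) ^ h.natAbs := h2
      _ ≤ padicNorm p (h : ℚ) * padicNorm p (term α ((i + i₀) ^ 2)) :=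
        mul_le_mul_of_nonneg_left (h3.trans h1) (padicNorm.nonneg _)
  have hne : ∀ i, (h * term α ((i + i₀) ^ 2) : ℚ) ≠ 0 := by
    intro i h0
    have := hge i
    rw [h0, padicNorm.zero] at this
    linarith
  have hex : ∀ i, ∃ e : ℕ, padicNorm p (h * term α ((i + i₀) ^ 2)) = (p : ℚ) ^ e := fun i =>
    norm_nat_pow _ (hne i) (hge i)
  choose e he using hex
  have hsh := fun i => shape (p := p) α h ((i + i₀) ^ 2) (e i) (by have := hkpos i; omega) (he i)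
  choose hea u hu hu' using hsh
  have hs0 : 0 < s' := Nat.ordCompl_pos p (s_ne α)
  refine ⟨fun i => (i + i₀) ^ 2, e, u, fun i => s' ^ ((i + i₀) ^ 2), fun _ => 0,
    fun I => s' ^ ((I + i₀) ^ 2), (a + s' + 1) * i₀ ^ 2, 2 * i₀, ?_, ?_, ?_⟩
  · intro i j hij
    exact Nat.pow_lt_pow_left (by omega) (by norm_num)
  · intro i
    push_cast
    have h1 : ((i : ℝ) + i₀) ≤ Real.exp ((i : ℝ) + i₀) := by
      have := Real.add_one_le_exp ((i : ℝ) + i₀)
      linarith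
    have h2 : ((i : ℝ) + i₀) ≤ i₀ * ((i : ℝ) + 1) := by
      have h3 : (1 : ℝ) ≤ i₀ := by
        have : 1 ≤ i₀ := by omega
        exact_mod_cast this
      have h4 : (0 : ℝ) ≤ i := Nat.cast_nonneg i
      nlinarith
    calc ((i : ℝ) + i₀) ^ 2 ≤ (Real.exp ((i : ℝ) + i₀)) ^ 2 :=
          pow_le_pow_left₀ (by positivity) h1 2
      _ = Real.exp (2 * ((i : ℝ) + i₀)) := by rw [← Real.exp_nat_mul]; norm_num
      _ ≤ Real.exp (2 * i₀ * ((i : ℝ) + 1)) := by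
        apply Real.exp_le_exp.2
        nlinarith
  · have hi1 : 1 ≤ i₀ := by omega
    have hsum : ∀ i : ℕ, (i + i₀) ^ 2 ≤ i₀ ^ 2 * (i + 1) ^ 2 := by
      intro i
      rw [← mul_pow]
      apply Nat.pow_le_pow_left
      nlinarith
    refine ⟨hp, hpb, ?_, ?_, ?_, hu, ?_, ?_, ?_, ?_, ?_, ?_⟩
    · intro i j hij
      simp only at hij
      have := Nat.pow_left_injective (n := 2) (by norm_num) hij
      omega
    · apply strictMono_nat_of_lt_succ
      intro i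
      have h1 := norm_mono (p := p) α hd ((i + i₀) ^ 2) ((i + 1 + i₀) ^ 2) (2 * (i + i₀) + 1)
        (by ring_nf; omega) (by
          have h2 := log_sq p (i + i₀) hp.two_le
          rw [show i + 1 + i₀ = i + i₀ + 1 by ring]
          exact h2)
      have hh0 : 0 < padicNorm p (h : ℚ) := by
        rcases (padicNorm.nonneg (p := p) (h : ℚ)).eq_or_lt with h3 | h3
        · exact absurd (padicNorm.zero_of_padicNorm_eq_zero h3.symm) (by exact_mod_cast hh)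
        · exact h3
      have h2 : (p : ℚ) ^ (e i) < (p : ℚ) ^ (e (i + 1)) := by
        rw [← he i, ← he (i + 1), padicNorm.mul, padicNorm.mul]
        exact mul_lt_mul_of_pos_left h1 hh0
      exact (pow_lt_pow_iff_right₀ hp1).1 h2
    · intro i
      have h1 := hu' i
      have h2 : ((((p : ℚ) ^ e i * ((spr α p : ℚ) ^ ((i + i₀) ^ 2) * (h * term α ((i + i₀) ^ 2))) : ℚ)) : ℝ) =
          ((u i : ℚ) : ℝ) := by rw [h1]
      push_cast at h2 ⊢
      exact h2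
    · intro i I hiI
      simp only [pow_zero, one_mul]
      exact pow_dvd_pow _ (Nat.pow_le_pow_left (by omega) 2)
    · intro I hdv
      exact Nat.not_dvd_ordCompl hp (s_ne α) (hp.dvd_of_dvd_pow hdv)
    · intro I
      push_cast
      have h1 : (s' : ℝ) ≤ Real.exp s' := by
        have := Real.add_one_le_exp (s' : ℝ)
        linarith
      calc (s' : ℝ) ^ ((I + i₀) ^ 2) ≤ (Real.exp s') ^ ((I + i₀) ^ 2) :=
            pow_le_pow_left₀ (by positivity) h1 _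
        _ = Real.exp (((I + i₀) ^ 2 : ℕ) * s') := by rw [← Real.exp_nat_mul]
        _ ≤ _ := by
          apply Real.exp_le_exp.2
          have h3 : (((I + i₀) ^ 2 : ℕ) : ℝ) ≤ ((i₀ ^ 2 * (I + 1) ^ 2 : ℕ) : ℝ) := by
            exact_mod_cast hsum I
          have h4 : (0 : ℝ) ≤ (i₀ : ℝ) ^ 2 * ((I : ℝ) + 1) ^ 2 := by positivity
          have h5 : (0 : ℝ) ≤ (s' : ℝ) := by positivity
          have h6 : (0 : ℝ) ≤ (a : ℝ) := by positivity
          push_cast at h3 ⊢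
          calc ((I : ℝ) + i₀) ^ 2 * s' ≤ ((i₀ : ℝ) ^ 2 * ((I : ℝ) + 1) ^ 2) * s' := by gcongr
            _ ≤ ((i₀ : ℝ) ^ 2 * ((I : ℝ) + 1) ^ 2) * (a + s' + 1) := by gcongr; linarith
            _ = _ := by ring
    · intro I
      rw [Nat.cast_zero]
      positivity
    · intro I l hl hdv
      have h1 : l ∣ s' := hl.dvd_of_dvd_pow hdv
      have h2 : l ≤ s' := Nat.le_of_dvd hs0 h1
      have h3 : s' < 2 ^ s' := Nat.lt_two_pow_self
      have h4 : 2 ^ s' ≤ (I + 2) ^ s' := Nat.pow_le_pow_left (by omega) _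
      have h5 : (I + 2) ^ s' ≤ (I + 2) ^ ((a + s' + 1) * i₀ ^ 2) := by
        apply Nat.pow_le_pow_right (by omega)
        have : 1 ≤ i₀ ^ 2 := Nat.one_le_pow _ _ hi1
        nlinarith
      omega
    · intro i
      refine (hea i).trans ?_
      have h1 := hsum i
      calc a * (i + i₀) ^ 2 ≤ a * (i₀ ^ 2 * (i + 1) ^ 2) := Nat.mul_le_mul_left _ h1
        _ ≤ (a + s' + 1) * (i₀ ^ 2 * (i + 1) ^ 2) := Nat.mul_le_mul_right _ (by omega)
        _ = _ := by ring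

lemma wn_of_av (b : ℕ) (y : ℝ) (H : ∀ h : ℤ, h ≠ 0 → AV b (h * y) 1) : Wn b y := by
  intro h hh δ hδ
  have h1 := H h hh
  have h2 := (tendsto_zero_iff_norm_tendsto_zero.1 h1).eventually_lt_const hδ
  filter_upwards [h2, eventually_gt_atTop 0] with N hN hN0
  have hN' : (0 : ℝ) < N := by exact_mod_cast hN0
  rw [norm_div, Complex.norm_natCast, div_lt_iff₀ hN'] at hN
  have h3 : Pool.Agent.Q77.Cos.W b h N y = ∑ i ∈ range N, ee (((1 : ℤ) : ℝ) * (h * y) * (b : ℝ) ^ i) := by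
    unfold Pool.Agent.Q77.Cos.W
    refine sum_congr rfl fun i _ => ?_
    unfold Pool.Agent.H332R2.Lit.e ee
    congr 1
    push_cast
    ring
  rw [h3]
  exact hN.le

/-- almost all subseries -/
theorem ae_ran {Ω : Type*} [MeasurableSpace Ω] (μ : Measure Ω) [IsProbabilityMeasure μ]
    (T : Ω → Set ℕ) (q : ℕ → ℝ) (hT : RandomSet μ T q)
    (hq : Tendsto (fun k : ℕ => q k * (1 - q k) * Real.log k) atTop atTop)
    (S : Set ℝ) (hS : S.Countable) :
    ∀ᵐ ω ∂μ, ∀ y ∈ S, ∀ α : ℚ, 0 < α → α < 2 → ∀ b : ℕ, 2 ≤ b →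
      (∃ p : ℕ, p.Prime ∧ p ∣ α.den ∧ ¬ p ∣ b) →
      Wn b (y + ∑' k, (T ω).indicator (fun k => (term α k : ℝ)) k) := by
  have hβ0 : ∀ k, 0 ≤ q k * (1 - q k) := fun k =>
    mul_nonneg (hT.q0 k) (by have := hT.q1 k; linarith)
  have key : ∀ᵐ ω ∂μ, ∀ y ∈ S, ∀ (α : ℚ) (b p : ℕ) (h : ℤ), (0 < α ∧ α < 2 ∧ 2 ≤ b ∧
      p.Prime ∧ p ∣ α.den ∧ ¬ p ∣ b ∧ h ≠ 0) →
      AV b (h * (y + ∑' k, (T ω).indicator (fun k => (term α k : ℝ)) k)) 1 := by
    rw [ae_ball_iff hS]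
    intro y _
    rw [ae_all_iff]
    intro α
    rw [ae_all_iff]
    intro b
    rw [ae_all_iff]
    intro p
    rw [ae_all_iff]
    intro h
    by_cases H : (0 < α ∧ α < 2 ∧ 2 ≤ b ∧ p.Prime ∧ p ∣ α.den ∧ ¬ p ∣ b ∧ h ≠ 0)
    · obtain ⟨h0, h2, hb, hp, hd, hpb, hh⟩ := H
      obtain ⟨k, e, v, d, m, Q, A, C, hk, hkC, hterms⟩ := terms α b p hp hd hpb h hh
      have hsum : Summable (fun k => (h : ℝ) * (term α k : ℝ)) := (hasSum_term α h0 h2).summable.mul_left _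
      have h3 := hterms.as_normal hb hT hsum
        (fun C' => cond_log (fun k => q k * (1 - q k)) hβ0 hq k hk C hkC C') (h * y)
      filter_upwards [h3] with ω hω _
      convert hω using 1
      rw [mul_add]
      congr 1
      unfold ser
      rw [← tsum_mul_left]
      refine tsum_congr fun k => ?_
      by_cases hk : k ∈ T ω
      · rw [Set.indicator_of_mem hk, Set.indicator_of_mem hk]
      · rw [Set.indicator_of_notMem hk, Set.indicator_of_notMem hk, mul_zero]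
    · exact Filter.Eventually.of_forall fun ω h1 => absurd h1 H
  filter_upwards [key] with ω hω y hy α h0 h2 b hb hp
  obtain ⟨p, hp, hd, hpb⟩ := hp
  exact wn_of_av b _ fun h hh => hω y hy α b p h ⟨h0, h2, hb, hp, hd, hpb, hh⟩

end Pool.Agent.H608.Fd
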