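import Pool.Agent.H608.Fd.Win

/-!
# The residues of random subsums are spread
-/

set_option autoImplicit false

open Finset Filter Topology MeasureTheory ProbabilityTheory
open scoped ENNReal

namespace Pool.Agent.H608.Fd

open Pool.Agent.Q77.Few (Wn indep_split)

/-- the terms of the series -/
structure PSeq (s Q s' p : ℕ) (r : ℕ → ℚ) : Prop where
  s2 : 2 ≤ s
  prime : p.Prime
  Q2 : 2 ≤ Q
  eq : s = Q * s'
  not_dvd : ¬ p ∣ s'
  int : ∀ k n, 1 ≤ k → k ≤ n → ∃ z : ℤ, r k * (s : ℚ) ^ n = z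
  big : ∀ l a, 1 < padicNorm p (r (idx l a))
  mono : ∀ l a l' a', idx l a < idx l' a' →
    padicNorm p (r (idx l a)) < padicNorm p (r (idx l' a'))
  bd : ∃ C θ : ℝ, 0 ≤ θ ∧ θ < 1 ∧ ∀ k, |(r k : ℝ)| ≤ C * θ ^ k

variable {s Q s' p : ℕ} {r : ℕ → ℚ}

/-- the terms at the random places -/
def tm (r : ℕ → ℚ) (l : ℕ) (ω : ∀ l, Fin (Mw l)) : ℚ := r (idx l (ω l))

/-- the random number -/
noncomputable def YY (r : ℕ → ℚ) (y : ℝ) (ω : ∀ l, Fin (Mw l)) : ℝ := y + ∑' l, (tm r l ω : ℝ)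

/-- the head -/
def HH (r : ℕ → ℚ) (s n : ℕ) (ω : ∀ l, Fin (Mw l)) : ℤ := ∑ l ∈ SS n, (tm r l ω * (s : ℚ) ^ n).num

/-- the tail -/
noncomputable def TT (r : ℕ → ℚ) (y : ℝ) (s n : ℕ) (ω : ∀ l, Fin (Mw l)) : ℝ :=
  YY r y ω - (HH r s n ω : ℝ) / (s : ℝ) ^ n

namespace PSeq

variable (P : PSeq s Q s' p r)

include P

lemma num_eq (k n : ℕ) (hk : 1 ≤ k) (hkn : k ≤ n) :
    (((r k * (s : ℚ) ^ n).num : ℤ) : ℚ) = r k * (s : ℚ) ^ n := by
  obtain ⟨z, hz⟩ := P.int k n hk hkn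
  rw [hz]
  simp

lemma head_eq (n : ℕ) (ω : ∀ l, Fin (Mw l)) :
    ((HH r s n ω : ℤ) : ℚ) = (∑ l ∈ SS n, tm r l ω) * (s : ℚ) ^ n := by
  unfold HH
  push_cast
  rw [sum_mul]
  refine sum_congr rfl fun l hl => ?_
  rw [mem_SS] at hl
  exact P.num_eq _ _ (idx_pos _ _) ((idx_le _ _).trans hl)

lemma s_pos : (0 : ℚ) < s := by
  have := P.s2
  exact_mod_cast (by omega : 0 < s)

lemma head_eq' (n : ℕ) (ω : ∀ l, Fin (Mw l)) :
    (HH r s n ω : ℝ) / (s : ℝ) ^ n = ∑ l ∈ SS n, (tm r l ω : ℝ) := by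
  have h1 := P.head_eq n ω
  have h2 : ((HH r s n ω : ℤ) : ℝ) = (∑ l ∈ SS n, (tm r l ω : ℝ)) * (s : ℝ) ^ n := by
    exact_mod_cast h1
  have h3 : (0 : ℝ) < s := by exact_mod_cast P.s_pos
  rw [h2, mul_div_assoc, div_self (by positivity), mul_one]

lemma summable_tm (ω : ∀ l, Fin (Mw l)) : Summable fun l => (tm r l ω : ℝ) := by
  obtain ⟨C, θ, hθ0, hθ1, hC⟩ := P.bd
  have hC0 : 0 ≤ C := by
    have := (abs_nonneg _).trans (hC 0)
    simpa using this
  apply Summable.of_norm_bounded (g := fun l => C * θ ^ l)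
  · exact (summable_geometric_of_lt_one hθ0 hθ1).mul_left C
  · intro l
    rw [Real.norm_eq_abs]
    refine (hC _).trans ?_
    apply mul_le_mul_of_nonneg_left _ hC0
    apply pow_le_pow_of_le_one hθ0 hθ1.le
    exact (le_ww l).trans (idx_gt l (ω l)).le

lemma tail_eq (y : ℝ) (n : ℕ) (ω : ∀ l, Fin (Mw l)) :
    TT r y s n ω = y + ∑' l, (if l ∈ SS n then 0 else (tm r l ω : ℝ)) := by
  unfold TT YY
  rw [P.head_eq']
  have h1 := P.summable_tm ω
  have h2 : HasSum (fun l => (if l ∈ SS n then (tm r l ω : ℝ) else 0)) (∑ l ∈ SS n, (tm r l ω : ℝ)) := by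
    have h3 : HasSum (fun l => (if l ∈ SS n then (tm r l ω : ℝ) else 0))
        (∑ l ∈ SS n, (if l ∈ SS n then (tm r l ω : ℝ) else 0)) :=
      hasSum_sum_of_ne_finset_zero fun l hl => by rw [if_neg hl]
    convert h3 using 1
    exact sum_congr rfl fun l hl => by rw [if_pos hl]
  have h3 := h1.hasSum.sub h2
  have h4 : (fun l => (tm r l ω : ℝ) - (if l ∈ SS n then (tm r l ω : ℝ) else 0)) =
      fun l => (if l ∈ SS n then 0 else (tm r l ω : ℝ)) := by
    ext l
    split_ifs <;> simp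
  rw [h4] at h3
  rw [h3.tsum_eq]
  ring

omit P in
lemma meas_tm (l : ℕ) : Measurable fun ω : ∀ l, Fin (Mw l) => (tm r l ω : ℝ) := by
  unfold tm
  exact (measurable_of_countable (fun a : Fin (Mw l) => ((r (idx l a) : ℚ) : ℝ))).comp
    (measurable_pi_apply l)

lemma meas_Y (y : ℝ) : Measurable (YY r y) := by
  unfold YY
  apply measurable_const.add
  refine measurable_of_tendsto_metrizable (f := fun (N : ℕ) (ω : ∀ l, Fin (Mw l)) =>
    ∑ l ∈ range N, (tm r l ω : ℝ)) (fun N => ?_) ?_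
  · exact Finset.measurable_sum _ fun l _ => meas_tm l
  · rw [tendsto_pi_nhds]
    intro ω
    exact (P.summable_tm ω).hasSum.tendsto_sum_nat

lemma meas_T (y : ℝ) (n : ℕ) : Measurable (TT r y s n) := by
  unfold TT
  apply (P.meas_Y y).sub
  have h1 : (fun ω : ∀ l, Fin (Mw l) => (HH r s n ω : ℝ) / (s : ℝ) ^ n) =
      fun ω => ∑ l ∈ SS n, (tm r l ω : ℝ) := by
    ext ω
    exact P.head_eq' n ω
  rw [h1]
  exact Finset.measurable_sum _ fun l _ => meas_tm l

/-- the main step of the injectivity -/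
lemma contra (n : ℕ) (ω ω' : ∀ l, Fin (Mw l)) (L : ℕ) (hL : L ∈ SS n)
    (hag : ∀ l ∈ SS n, L < l → ω l = ω' l) (hlt : idx L (ω' L) < idx L (ω L))
    (hD : padicNorm p (∑ l ∈ SS n, tm r l ω - ∑ l ∈ SS n, tm r l ω') ≤ 1) : False := by
  classical
  haveI : Fact p.Prime := ⟨P.prime⟩
  set N := padicNorm p (r (idx L (ω L))) with hN
  have hN1 : 1 < N := P.big L (ω L)
  -- all the other terms are smaller
  have h1 : r (idx L (ω L)) = (∑ l ∈ SS n, tm r l ω - ∑ l ∈ SS n, tm r l ω') +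
      (∑ l ∈ (SS n).erase L, (tm r l ω' - tm r l ω) + tm r L ω') := by
    have h2 : ∑ l ∈ SS n, tm r l ω = tm r L ω + ∑ l ∈ (SS n).erase L, tm r l ω :=
      (add_sum_erase _ _ hL).symm
    have h3 : ∑ l ∈ SS n, tm r l ω' = tm r L ω' + ∑ l ∈ (SS n).erase L, tm r l ω' :=
      (add_sum_erase _ _ hL).symm
    rw [h2, h3, sum_sub_distrib]
    unfold tm
    ring
  have h2 : padicNorm p (∑ l ∈ (SS n).erase L, (tm r l ω' - tm r l ω)) < N := by
    apply padicNorm.sum_lt' _ (by linarith)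
    intro l hl
    rw [mem_erase] at hl
    rcases lt_or_gt_of_ne hl.1 with h3 | h3
    · have h4 : padicNorm p (tm r l ω') < N := P.mono _ _ _ _ (idx_lt_of_lt h3 _ _)
      have h5 : padicNorm p (tm r l ω) < N := P.mono _ _ _ _ (idx_lt_of_lt h3 _ _)
      exact lt_of_le_of_lt padicNorm.sub (max_lt h4 h5)
    · have h4 := hag l hl.2 h3
      have h5 : tm r l ω' - tm r l ω = 0 := by
        unfold tm
        rw [h4, sub_self]
      rw [h5, padicNorm.zero]
      linarith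
  have h3 : padicNorm p (tm r L ω') < N := P.mono _ _ _ _ hlt
  have h4 : padicNorm p (∑ l ∈ (SS n).erase L, (tm r l ω' - tm r l ω) + tm r L ω') < N :=
    lt_of_le_of_lt padicNorm.nonarchimedean (max_lt h2 h3)
  have h5 : N < N := by
    conv_lhs => rw [hN, h1]
    exact lt_of_le_of_lt padicNorm.nonarchimedean (max_lt (lt_of_le_of_lt hD hN1) h4)
  exact lt_irrefl _ h5

/-- the residue determines the places -/
lemma inj (n : ℕ) (ω ω' : ∀ l, Fin (Mw l)) (h : HH r s n ω ≡ HH r s n ω' [ZMOD (Q : ℤ) ^ n]) :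
    ∀ l ∈ SS n, ω l = ω' l := by
  classical
  haveI : Fact p.Prime := ⟨P.prime⟩
  by_contra hcon
  push Not at hcon
  obtain ⟨l₀, hl₀, hne₀⟩ := hcon
  set Δ := (SS n).filter (fun l => ω l ≠ ω' l) with hΔ
  have hΔne : Δ.Nonempty := ⟨l₀, by rw [hΔ, mem_filter]; exact ⟨hl₀, hne₀⟩⟩
  set L := Δ.max' hΔne with hL
  have hLmem : L ∈ Δ := Δ.max'_mem hΔne
  rw [hΔ, mem_filter] at hLmem
  have hag : ∀ l ∈ SS n, L < l → ω l = ω' l := by
    intro l hl hlt
    by_contra hne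
    have h1 : l ∈ Δ := by rw [hΔ, mem_filter]; exact ⟨hl, hne⟩
    have := Δ.le_max' l h1
    omega
  -- the difference is `p`-integral
  have hD : ∀ z z' : ℤ, z ≡ z' [ZMOD (Q : ℤ) ^ n] → ∀ a a' : ℚ, (z : ℚ) = a * (s : ℚ) ^ n →
      (z' : ℚ) = a' * (s : ℚ) ^ n → padicNorm p (a - a') ≤ 1 := by
    intro z z' hz a a' ha ha'
    obtain ⟨t, ht⟩ := (Int.modEq_iff_dvd.1 hz)
    have h1 : (a' - a) * (s' : ℚ) ^ n = t := by
      have h2 : (z' : ℚ) - z = (Q : ℚ) ^ n * t := by exact_mod_cast ht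
      rw [ha, ha', P.eq] at h2
      have hQ : (0 : ℚ) < (Q : ℚ) ^ n := by
        have : (0 : ℚ) < Q := by
          have := P.Q2
          exact_mod_cast (by omega : 0 < Q)
        positivity
      push_cast at h2
      rw [mul_pow] at h2
      have h3 : (Q : ℚ) ^ n * ((a' - a) * (s' : ℚ) ^ n) = (Q : ℚ) ^ n * t := by
        rw [← h2]
        ring
      exact mul_left_cancel₀ hQ.ne' h3
    have h2 : padicNorm p ((s' : ℚ) ^ n) = 1 := by
      rw [← Nat.cast_pow, padicNorm.nat_eq_one_iff]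
      intro h3
      exact P.not_dvd (P.prime.dvd_of_dvd_pow h3)
    have h3 : padicNorm p (a' - a) = padicNorm p (t : ℚ) := by
      rw [← h1, padicNorm.mul, h2, mul_one]
    have h4 : a - a' = -(a' - a) := by ring
    rw [h4, padicNorm.neg, h3]
    exact padicNorm.of_int t
  have hne : idx L (ω L) ≠ idx L (ω' L) := by
    intro heq
    apply hLmem.2
    unfold idx at heq
    have h1 : gap L * ((ω L : ℕ) + 1) = gap L * ((ω' L : ℕ) + 1) := by omega
    have h2 := Nat.eq_of_mul_eq_mul_left (gap_pos L) h1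
    exact Fin.ext (by omega)
  rcases lt_or_gt_of_ne hne with h1 | h1
  · exact P.contra n ω' ω L hLmem.1 (fun l hl hlt => (hag l hl hlt).symm) h1
      (hD _ _ h.symm _ _ (P.head_eq n ω') (P.head_eq n ω))
  · exact P.contra n ω ω' L hLmem.1 hag h1 (hD _ _ h _ _ (P.head_eq n ω) (P.head_eq n ω'))

theorem spread (y : ℝ) (n : ℕ) :
    SpreadAt μ Q n (HH r s n) (TT r y s n) (ENNReal.ofReal (prn n)) := by
  classical
  intro u S hS
  have h2 : {ω | HH r s n ω ≡ u [ZMOD (Q : ℤ) ^ n] ∧ TT r y s n ω ∈ S} =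
      {ω | HH r s n ω ≡ u [ZMOD (Q : ℤ) ^ n]} ∩ {ω | TT r y s n ω ∈ S} := rfl
  rw [h2]
  rcases Set.eq_empty_or_nonempty {ω | HH r s n ω ≡ u [ZMOD (Q : ℤ) ^ n]} with he | he
  · rw [he, Set.empty_inter, measure_empty]
    exact zero_le
  obtain ⟨ω0, hω0⟩ := he
  have hsub : {ω | HH r s n ω ≡ u [ZMOD (Q : ℤ) ^ n]} ⊆ Set.pi (SS n : Set ℕ) (fun l => {ω0 l}) := by
    intro ω hω
    have h3 := P.inj n ω ω0 (hω.trans hω0.symm)
    rw [Set.mem_pi]
    exact fun l hl => h3 l hl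
  have hPm : MeasurableSet (Set.pi (SS n : Set ℕ) (fun l => ({ω0 l} : Set (Fin (Mw l))))) :=
    MeasurableSet.pi (Set.to_countable _) (fun i _ => measurableSet_singleton _)
  have hTm : MeasurableSet {ω | TT r y s n ω ∈ S} := P.meas_T y n hS
  have hind := indep_split U (SS n : Set ℕ) (Set.pi (SS n : Set ℕ) (fun l => {ω0 l}))
    {ω | TT r y s n ω ∈ S} hPm hTm
    (by
      intro ω ω' h
      simp only [Set.mem_pi, Set.mem_singleton_iff]
      constructor
      · intro h2 i hi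
        rw [← h i hi]
        exact h2 i hi
      · intro h2 i hi
        rw [h i hi]
        exact h2 i hi)
    (by
      intro ω ω' h
      have h3 : TT r y s n ω = TT r y s n ω' := by
        rw [P.tail_eq, P.tail_eq]
        congr 1
        apply tsum_congr
        intro l
        by_cases hl : l ∈ SS n
        · rw [if_pos hl, if_pos hl]
        · rw [if_neg hl, if_neg hl]
          unfold tm
          rw [h l (by simpa using hl)]
      simp only [Set.mem_ofPred_eq, h3])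
  calc _ ≤ Measure.infinitePi U (Set.pi (SS n : Set ℕ) (fun l => {ω0 l}) ∩ {ω | TT r y s n ω ∈ S}) :=
        measure_mono (Set.inter_subset_inter_left _ hsub)
    _ = _ := hind
    _ ≤ _ := by
        unfold μ
        gcongr
        rw [Measure.infinitePi_pi _ (fun i _ => measurableSet_singleton _)]
        have hpr : prn n = ∏ l ∈ SS n, (1 / (Mw l : ℝ)) := rfl
        rw [hpr, ENNReal.ofReal_prod_of_nonneg (fun i _ => by positivity)]
        apply le_of_eq
        refine Finset.prod_congr rfl fun l _ => ?_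
        rw [U_single, one_div, ENNReal.ofReal_inv_of_pos (by exact_mod_cast Mw_pos l),
          ENNReal.ofReal_natCast]

/-- almost all choices of the places give numbers with small exponential sums -/
theorem ae (y : ℝ) : ∀ᵐ ω ∂μ, ∀ b : ℕ, 2 ≤ b → b.Coprime Q → Wn b (YY r y ω) := by
  refine ae_gen s P.s2 Q P.Q2 ⟨s', P.eq⟩ μ (YY r y) (HH r s) (TT r y s)
    (fun n => ENNReal.ofReal (prn n)) (P.meas_T y) (P.spread y) (fun n ω => ?_) tsum_prn
  unfold TT
  ring

end PSeq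

end Pool.Agent.H608.Fd
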