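import Pool.Agent.H608.Fd.Sub

/-!
# The binomial series of `√2`
-/

set_option autoImplicit false

open Finset Filter Topology

namespace Pool.Agent.H608.Fd

/-- the coefficients of `(1 - x) ^ (-1/2)` -/
lemma choose_half (n : ℕ) : Ring.choose ((1 : ℝ) / 2 + n - 1) n = (Nat.centralBinom n : ℝ) / 4 ^ n := by
  have h0 : Ring.choose ((1 : ℝ) / 2 + n - 1) n = Ring.multichoose ((1 : ℝ) / 2) n := by
    rw [Ring.choose]
    congr 1
    ring
  rw [h0]
  have h1 : ∀ n : ℕ, (ascPochhammer ℝ n).eval (1 / 2 : ℝ) =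
      n.factorial * ((Nat.centralBinom n : ℝ) / 4 ^ n) := by
    intro n
    induction n with
    | zero => simp
    | succ n ih =>
      rw [ascPochhammer_succ_eval, ih]
      have h2 : ((n : ℝ) + 1) * Nat.centralBinom (n + 1) = 2 * (2 * n + 1) * Nat.centralBinom n := by
        exact_mod_cast Nat.succ_mul_centralBinom_succ n
      rw [Nat.factorial_succ, pow_succ]
      push_cast
      have h3 : ((n : ℝ) + 1) * (n.factorial : ℝ) * ((Nat.centralBinom (n + 1) : ℝ) / (4 ^ n * 4)) =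
          (n.factorial : ℝ) * ((((n : ℝ) + 1) * Nat.centralBinom (n + 1)) / (4 ^ n * 4)) := by ring
      rw [h3, h2]
      field_simp
      ring
  have h2 := Ring.factorial_nsmul_multichoose_eq_ascPochhammer ((1 : ℝ) / 2) n
  rw [Polynomial.ascPochhammer_smeval_eq_eval, h1, nsmul_eq_mul] at h2
  have h3 : (n.factorial : ℝ) ≠ 0 := by positivity
  exact mul_left_cancel₀ h3 h2

lemma hasSum_half (x : ℝ) (hx : |x| < 1) :
    HasSum (fun n : ℕ => (Nat.centralBinom n : ℝ) / 4 ^ n * x ^ n) (1 / Real.sqrt (1 - x)) := by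
  have h1 := Real.one_div_one_sub_rpow_hasFPowerSeriesOnBall_zero (1 / 2)
  have h2 := h1.hasSum (y := x) (by
    rw [Metric.mem_eball, edist_zero_right]
    rw [← ofReal_norm, ← ENNReal.ofReal_one]
    exact (ENNReal.ofReal_lt_ofReal_iff one_pos).2 hx)
  rw [zero_add, ← Real.sqrt_eq_rpow] at h2
  have e : (fun n : ℕ => (Nat.centralBinom n : ℝ) / 4 ^ n * x ^ n) = fun n =>
      (FormalMultilinearSeries.ofScalars ℝ fun n : ℕ => Ring.choose ((1 : ℝ) / 2 + n - 1) n) n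
        fun _ => x := by
    funext n
    rw [FormalMultilinearSeries.ofScalars_apply_eq, smul_eq_mul, choose_half]
  rw [e]
  exact h2

/-- the terms of the binomial series `√2 = α (1 - (2 - α ^ 2) / 2) ^ (-1/2)` -/
def term (α : ℚ) (k : ℕ) : ℚ := α * Nat.centralBinom k * ((2 - α ^ 2) / 8) ^ k

/-- the argument of the series -/
def xx (α : ℚ) : ℚ := 1 - α ^ 2 / 2

lemma xx_abs (α : ℚ) (h0 : 0 < α) (h2 : α < 2) : |xx α| < 1 := by
  unfold xx
  rw [abs_lt]
  constructor <;> nlinarith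

lemma term_eq (α : ℚ) (k : ℕ) : (term α k : ℝ) =
    α * ((Nat.centralBinom k : ℝ) / 4 ^ k * (xx α : ℝ) ^ k) := by
  unfold term xx
  push_cast
  have h1 : ((2 : ℝ) - (α : ℝ) ^ 2) / 8 = (1 - (α : ℝ) ^ 2 / 2) / 4 := by ring
  rw [h1, div_pow]
  ring

theorem hasSum_term (α : ℚ) (h0 : 0 < α) (h2 : α < 2) :
    HasSum (fun k => (term α k : ℝ)) (Real.sqrt 2) := by
  have hx1 : |(xx α : ℝ)| < 1 := by exact_mod_cast xx_abs α h0 h2
  have hα : (0 : ℝ) < α := by exact_mod_cast h0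
  have h1 := (hasSum_half (xx α : ℝ) hx1).mul_left (α : ℝ)
  have h2 : (1 - (xx α : ℝ)) = (α : ℝ) ^ 2 / 2 := by
    unfold xx
    push_cast
    ring
  have h3 : (α : ℝ) * (1 / Real.sqrt (1 - (xx α : ℝ))) = Real.sqrt 2 := by
    rw [h2, Real.sqrt_div (by positivity), Real.sqrt_sq (by positivity)]
    field_simp
  rw [h3] at h1
  simp only [term_eq]
  exact h1

lemma term_bd (α : ℚ) (k : ℕ) : |(term α k : ℝ)| ≤ |(α : ℝ)| * |(xx α : ℝ)| ^ k := by
  rw [term_eq, abs_mul, abs_mul, abs_pow, abs_div]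
  have h1 : |(Nat.centralBinom k : ℝ)| / |(4 : ℝ) ^ k| ≤ 1 := by
    rw [abs_of_nonneg (Nat.cast_nonneg _), abs_of_pos (by positivity), div_le_one (by positivity)]
    have := Nat.centralBinom_le_four_pow k
    exact_mod_cast this
  have h2 : |(Nat.centralBinom k : ℝ)| / |(4 : ℝ) ^ k| * |(xx α : ℝ)| ^ k ≤ 1 * |(xx α : ℝ)| ^ k :=
    mul_le_mul_of_nonneg_right h1 (by positivity)
  calc _ ≤ |(α : ℝ)| * (1 * |(xx α : ℝ)| ^ k) := mul_le_mul_of_nonneg_left h2 (abs_nonneg _)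
    _ = _ := by rw [one_mul]

/-- the denominators -/
lemma term_int (α : ℚ) (k n : ℕ) (hk : 1 ≤ k) (hkn : k ≤ n) :
    ∃ z : ℤ, term α k * ((8 * α.den ^ 3 : ℕ) : ℚ) ^ n = z := by
  obtain ⟨j, rfl⟩ : ∃ j, k = j + 1 := ⟨k - 1, by omega⟩
  obtain ⟨m, rfl⟩ : ∃ m, n = j + 1 + m := ⟨n - (j + 1), by omega⟩
  refine ⟨α.num * Nat.centralBinom (j + 1) * (2 * (α.den : ℤ) ^ 2 - α.num ^ 2) ^ (j + 1) *
    (α.den : ℤ) ^ j * (8 * (α.den : ℤ) ^ 3) ^ m, ?_⟩
  have hc : (α.den : ℚ) ≠ 0 := by exact_mod_cast α.den_nz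
  have hα : α * α.den = α.num := Rat.mul_den_eq_num α
  have h1 : ((2 - α ^ 2) / 8) * (8 * (α.den : ℚ) ^ 2) = 2 * (α.den : ℚ) ^ 2 - (α.num : ℚ) ^ 2 := by
    rw [← hα]
    ring
  obtain ⟨w, hw⟩ : ∃ w : ℚ, w = (2 - α ^ 2) / 8 := ⟨_, rfl⟩
  unfold term
  push_cast
  rw [← h1, ← hw, ← hα]
  ring

/-! ### The `p`-adic norms -/

section norms

variable {p : ℕ} [hp : Fact p.Prime]

lemma norm_pow (x : ℚ) (k : ℕ) : padicNorm p (x ^ k) = padicNorm p x ^ k := by
  induction k with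
  | zero => simp
  | succ k ih => rw [pow_succ, pow_succ, padicNorm.mul, ih]

lemma norm_alpha (α : ℚ) (hd : p ∣ α.den) : (p : ℚ) ≤ padicNorm p α := by
  have hp0 : (0 : ℚ) < p := by exact_mod_cast hp.out.pos
  have h1 : padicNorm p (α.num : ℚ) = 1 := by
    rw [padicNorm.int_eq_one_iff]
    intro h
    have h2 : p ∣ α.num.natAbs := Int.natCast_dvd.1 h
    have h4 : p ∣ Nat.gcd α.num.natAbs α.den := Nat.dvd_gcd h2 hd
    rw [α.reduced] at h4
    exact hp.out.one_lt.ne' (Nat.dvd_one.1 h4)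
  have h2 : padicNorm p (α.den : ℚ) ≤ (p : ℚ)⁻¹ := by
    have h3 := (padicNorm.dvd_iff_norm_le (p := p) (n := 1) (z := (α.den : ℤ))).1
      (by simpa using (Int.natCast_dvd_natCast.2 hd))
    simpa using h3
  have h3 : padicNorm p α * padicNorm p (α.den : ℚ) = 1 := by
    rw [← padicNorm.mul, Rat.mul_den_eq_num, h1]
  have h4 : 0 ≤ padicNorm p α := padicNorm.nonneg _
  have h5 : 1 ≤ padicNorm p α * (p : ℚ)⁻¹ := by
    rw [← h3]
    exact mul_le_mul_of_nonneg_left h2 h4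
  rwa [← div_eq_mul_inv, le_div_iff₀ hp0, one_mul] at h5

lemma norm_z (α : ℚ) (hd : p ∣ α.den) : (p : ℚ) ^ 2 ≤ padicNorm p ((2 - α ^ 2) / 8) := by
  have hp1 : (1 : ℚ) < p := by exact_mod_cast hp.out.one_lt
  have h1 := norm_alpha α hd
  have h2 : padicNorm p (2 : ℚ) ≤ 1 := by
    have := padicNorm.of_int (p := p) 2
    simpa using this
  have h3 : padicNorm p (8 : ℚ) ≤ 1 := by
    have := padicNorm.of_int (p := p) 8
    simpa using this
  have h4 : (p : ℚ) ^ 2 ≤ padicNorm p (α ^ 2) := by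
    rw [pow_two, pow_two, padicNorm.mul]
    exact mul_le_mul h1 h1 (by linarith) (by linarith)
  have h5 : padicNorm p (2 - α ^ 2) = padicNorm p (α ^ 2) := by
    have h6 : padicNorm p (2 : ℚ) ≠ padicNorm p (-α ^ 2) := by
      rw [padicNorm.neg]
      intro h
      nlinarith
    rw [sub_eq_add_neg, padicNorm.add_eq_max_of_ne h6, padicNorm.neg, max_eq_right]
    nlinarith
  have h8 : padicNorm p ((2 - α ^ 2) / 8) = padicNorm p (α ^ 2) / padicNorm p (8 : ℚ) := by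
    rw [padicNorm.div, h5]
  have h9 : 0 < padicNorm p (8 : ℚ) := by
    rcases (padicNorm.nonneg (p := p) (8 : ℚ)).eq_or_lt with h | h
    · exact absurd (padicNorm.zero_of_padicNorm_eq_zero h.symm) (by norm_num)
    · exact h
  rw [h8, le_div_iff₀ h9]
  nlinarith

lemma norm_cb (k : ℕ) : (1 : ℚ) ≤ padicNorm p (Nat.centralBinom k : ℚ) * (p : ℚ) ^ Nat.log p (2 * k) ∧
    padicNorm p (Nat.centralBinom k : ℚ) ≤ 1 := by
  have hp1 : (1 : ℚ) < p := by exact_mod_cast hp.out.one_lt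
  have hcb : (Nat.centralBinom k : ℚ) ≠ 0 := by exact_mod_cast (Nat.centralBinom_ne_zero k)
  refine ⟨?_, by simpa using padicNorm.of_int (p := p) (Nat.centralBinom k : ℤ)⟩
  rw [padicNorm.eq_zpow_of_nonzero hcb]
  have h1 : padicValRat p (Nat.centralBinom k : ℚ) ≤ Nat.log p (2 * k) := by
    rw [padicValRat.of_nat]
    have h2 := Nat.factorization_choose_le_log (p := p) (n := 2 * k) (k := k)
    rw [Nat.factorization_def _ hp.out] at h2
    rw [Nat.centralBinom_eq_two_mul_choose]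
    exact_mod_cast h2
  rw [← zpow_natCast, ← zpow_add₀ (by linarith)]
  apply one_le_zpow₀ hp1.le
  linarith

lemma norm_term_ge (α : ℚ) (k : ℕ) :
    padicNorm p α * padicNorm p ((2 - α ^ 2) / 8) ^ k ≤
      padicNorm p (term α k) * (p : ℚ) ^ Nat.log p (2 * k) := by
  unfold term
  rw [padicNorm.mul, padicNorm.mul, norm_pow]
  have h1 := (norm_cb (p := p) k).1
  have h2 : 0 ≤ padicNorm p α * padicNorm p ((2 - α ^ 2) / 8) ^ k :=
    mul_nonneg (padicNorm.nonneg _) (pow_nonneg (padicNorm.nonneg _) _)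
  calc _ = (padicNorm p α * padicNorm p ((2 - α ^ 2) / 8) ^ k) * 1 := by ring
    _ ≤ (padicNorm p α * padicNorm p ((2 - α ^ 2) / 8) ^ k) *
        (padicNorm p (Nat.centralBinom k : ℚ) * (p : ℚ) ^ Nat.log p (2 * k)) := by gcongr
    _ = _ := by ring

lemma norm_term_le (α : ℚ) (k : ℕ) :
    padicNorm p (term α k) ≤ padicNorm p α * padicNorm p ((2 - α ^ 2) / 8) ^ k := by
  unfold term
  rw [padicNorm.mul, padicNorm.mul, norm_pow]
  have h1 := (norm_cb (p := p) k).2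
  have h2 : 0 ≤ padicNorm p α * padicNorm p ((2 - α ^ 2) / 8) ^ k :=
    mul_nonneg (padicNorm.nonneg _) (pow_nonneg (padicNorm.nonneg _) _)
  calc _ = (padicNorm p α * padicNorm p ((2 - α ^ 2) / 8) ^ k) * padicNorm p (Nat.centralBinom k : ℚ) := by
        ring
    _ ≤ (padicNorm p α * padicNorm p ((2 - α ^ 2) / 8) ^ k) * 1 := by gcongr
    _ = _ := by ring

/-- the norm increases -/
lemma norm_mono (α : ℚ) (hd : p ∣ α.den) (k k' g : ℕ) (h : k + g ≤ k')
    (hg : Nat.log p (2 * k') < 2 * g) : padicNorm p (term α k) < padicNorm p (term α k') := by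
  have hp1 : (1 : ℚ) < p := by exact_mod_cast hp.out.one_lt
  have hα := norm_alpha α hd
  have hz := norm_z α hd
  obtain ⟨Z, hZ⟩ : ∃ Z, Z = padicNorm p ((2 - α ^ 2) / 8) := ⟨_, rfl⟩
  obtain ⟨A, hA⟩ : ∃ A, A = padicNorm p α := ⟨_, rfl⟩
  have h1 := norm_term_ge (p := p) α k'
  have h2 := norm_term_le (p := p) α k
  rw [← hZ] at h1 h2 hz
  rw [← hA] at h1 h2 hα
  have hA0 : 0 < A := by linarith
  have hZ1 : 1 ≤ Z := by nlinarith
  obtain ⟨j, rfl⟩ : ∃ j, k' = k + g + j := ⟨k' - (k + g), by omega⟩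
  have h3 : A * Z ^ k * (p : ℚ) ^ (2 * g) ≤ A * Z ^ (k + g + j) := by
    have h4 : (p : ℚ) ^ (2 * g) ≤ Z ^ g := by
      rw [pow_mul]
      exact pow_le_pow_left₀ (by positivity) hz g
    have h5 : (1 : ℚ) ≤ Z ^ j := one_le_pow₀ hZ1
    have h6 : Z ^ (k + g + j) = Z ^ k * (Z ^ g * Z ^ j) := by rw [pow_add, pow_add]; ring
    rw [h6, mul_assoc]
    apply mul_le_mul_of_nonneg_left _ hA0.le
    apply mul_le_mul_of_nonneg_left _ (by positivity)
    calc (p : ℚ) ^ (2 * g) ≤ Z ^ g * 1 := by rw [mul_one]; exact h4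
      _ ≤ Z ^ g * Z ^ j := by gcongr
  have h4 : (p : ℚ) ^ Nat.log p (2 * (k + g + j)) < (p : ℚ) ^ (2 * g) :=
    pow_lt_pow_right₀ hp1 hg
  have h5 : 0 < A * Z ^ k := by positivity
  have h6 : A * Z ^ k * (p : ℚ) ^ Nat.log p (2 * (k + g + j)) < A * Z ^ k * (p : ℚ) ^ (2 * g) :=
    mul_lt_mul_of_pos_left h4 h5
  have h7 : padicNorm p (term α k) * (p : ℚ) ^ Nat.log p (2 * (k + g + j)) ≤
      A * Z ^ k * (p : ℚ) ^ Nat.log p (2 * (k + g + j)) :=
    mul_le_mul_of_nonneg_right h2 (by positivity)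
  have h8 : padicNorm p (term α k) * (p : ℚ) ^ Nat.log p (2 * (k + g + j)) <
      padicNorm p (term α (k + g + j)) * (p : ℚ) ^ Nat.log p (2 * (k + g + j)) := by linarith
  exact lt_of_mul_lt_mul_right h8 (by positivity)

lemma norm_big (α : ℚ) (hd : p ∣ α.den) (k : ℕ) (hk : 1 ≤ k) : 1 < padicNorm p (term α k) := by
  have hp1 : (1 : ℚ) < p := by exact_mod_cast hp.out.one_lt
  have hα := norm_alpha α hd
  have hz := norm_z α hd
  have h1 := norm_term_ge (p := p) α k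
  have h2 : (p : ℚ) ^ (2 * k) ≤ padicNorm p ((2 - α ^ 2) / 8) ^ k := by
    rw [pow_mul]
    exact pow_le_pow_left₀ (by positivity) hz k
  have h3 : (p : ℚ) ^ Nat.log p (2 * k) < (p : ℚ) ^ (2 * k) :=
    pow_lt_pow_right₀ hp1 (Nat.log_lt_self p (by omega))
  have h4 : (1 : ℚ) * (p : ℚ) ^ Nat.log p (2 * k) <
      padicNorm p (term α k) * (p : ℚ) ^ Nat.log p (2 * k) := by
    calc (1 : ℚ) * (p : ℚ) ^ Nat.log p (2 * k) < 1 * (p : ℚ) ^ (2 * k) := by gcongr
      _ ≤ padicNorm p α * padicNorm p ((2 - α ^ 2) / 8) ^ k := by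
        apply mul_le_mul (by linarith) h2 (by positivity) (padicNorm.nonneg _)
      _ ≤ _ := h1
  exact lt_of_mul_lt_mul_right h4 (by positivity)

end norms

/-- the part of the denominator which is prime to `p` -/
def spr (α : ℚ) (p : ℕ) : ℕ := (8 * α.den ^ 3) / p ^ (8 * α.den ^ 3).factorization p

/-- the `p`-part of the denominator -/
def Qp (α : ℚ) (p : ℕ) : ℕ := p ^ (8 * α.den ^ 3).factorization p

lemma s_ne (α : ℚ) : 8 * α.den ^ 3 ≠ 0 := by
  have := α.pos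
  positivity

theorem pseq (α : ℚ) (h0 : 0 < α) (h2 : α < 2) (p : ℕ) (hp : p.Prime) (hd : p ∣ α.den) :
    PSeq (8 * α.den ^ 3) (Qp α p) (spr α p) p (term α) := by
  haveI : Fact p.Prime := ⟨hp⟩
  have hden := α.pos
  have h1 : 1 ≤ α.den ^ 3 := Nat.one_le_pow _ _ hden
  refine ⟨by omega, hp, ?_, (Nat.ordProj_mul_ordCompl_eq_self _ p).symm,
    Nat.not_dvd_ordCompl hp (s_ne α), ?_, ?_, ?_, ?_⟩
  · have h3 : p ∣ 8 * α.den ^ 3 := (dvd_pow hd (by norm_num)).trans (dvd_mul_left _ _)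
    have h4 : 0 < (8 * α.den ^ 3).factorization p := hp.factorization_pos_of_dvd (s_ne α) h3
    unfold Qp
    calc 2 ≤ p := hp.two_le
      _ = p ^ 1 := (pow_one p).symm
      _ ≤ _ := Nat.pow_le_pow_right hp.pos h4
  · exact fun k n hk hkn => term_int α k n hk hkn
  · exact fun l a => norm_big α hd _ (idx_pos l a)
  · intro l a l' a' h
    exact norm_mono α hd _ _ (gap l') (idx_gap l l' a a' h) (log_idx l' a' p hp.two_le)
  · refine ⟨|(α : ℝ)|, |(xx α : ℝ)|, abs_nonneg _, by exact_mod_cast xx_abs α h0 h2, term_bd α⟩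

/-- the negative series -/
theorem PSeq.neg {s Q s' p : ℕ} {r : ℕ → ℚ} (P : PSeq s Q s' p r) :
    PSeq s Q s' p (fun k => -r k) := by
  refine ⟨P.s2, P.prime, P.Q2, P.eq, P.not_dvd, ?_, ?_, ?_, ?_⟩
  · intro k n hk hkn
    obtain ⟨z, hz⟩ := P.int k n hk hkn
    exact ⟨-z, by rw [neg_mul, hz]; push_cast; ring⟩
  · intro l a
    rw [padicNorm.neg]
    exact P.big l a
  · intro l a l' a' h
    rw [padicNorm.neg, padicNorm.neg]
    exact P.mono l a l' a' h
  · obtain ⟨C, θ, h0, h1, h2⟩ := P.bd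
    refine ⟨C, θ, h0, h1, fun k => ?_⟩
    push_cast
    rw [abs_neg]
    exact h2 k

end Pool.Agent.H608.Fd
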