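import Pool.Agent.H608.Fd.Bad
import Pool.Graph.R_pool_sql_team_seeded_3997aac3.Q77.Few.Laws

/-!
# One random place in each window, and random subsums of a series

The windows have about doubly exponential length; the possible places in the window `l` have distance
`2 ^ (l + 3)`.
-/

set_option autoImplicit false

open Finset Filter Topology MeasureTheory ProbabilityTheory
open scoped ENNReal

namespace Pool.Agent.H608.Fd

open Pool.Agent.Q77.Few (Wn indep_split)

/-- exponent of the number of the places -/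
def mexp (l : ℕ) : ℕ := 2 ^ l + 2 * l + 5

/-- number of the places in a window -/
def Mw (l : ℕ) : ℕ := 2 ^ mexp l

/-- distance of the places -/
def gap (l : ℕ) : ℕ := 2 ^ (l + 3)

/-- start of a window -/
def ww : ℕ → ℕ
  | 0 => 0
  | l + 1 => ww l + Mw l * gap l

/-- the places -/
def idx (l : ℕ) (a : Fin (Mw l)) : ℕ := ww l + gap l * ((a : ℕ) + 1)

lemma Mw_pos (l : ℕ) : 0 < Mw l := Nat.pow_pos (by norm_num)

lemma gap_pos (l : ℕ) : 0 < gap l := Nat.pow_pos (by norm_num)

instance (l : ℕ) : NeZero (Mw l) := ⟨(Mw_pos l).ne'⟩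

lemma ww_mono : StrictMono ww := strictMono_nat_of_lt_succ fun l => by
  rw [ww]
  have := Nat.mul_pos (Mw_pos l) (gap_pos l)
  omega

lemma le_ww (l : ℕ) : l ≤ ww l := ww_mono.id_le l

lemma idx_gt (l : ℕ) (a : Fin (Mw l)) : ww l < idx l a := by
  unfold idx
  have := Nat.mul_pos (gap_pos l) (Nat.succ_pos (a : ℕ))
  simp only [Nat.succ_eq_add_one] at this
  omega

lemma idx_le (l : ℕ) (a : Fin (Mw l)) : idx l a ≤ ww (l + 1) := by
  unfold idx
  rw [ww]
  have h1 : (a : ℕ) + 1 ≤ Mw l := a.isLt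
  have h2 : gap l * ((a : ℕ) + 1) ≤ gap l * Mw l := Nat.mul_le_mul_left _ h1
  rw [mul_comm (gap l) (Mw l)] at h2
  omega

lemma idx_pos (l : ℕ) (a : Fin (Mw l)) : 1 ≤ idx l a := by
  have := idx_gt l a
  omega

lemma idx_lt_of_lt {l l' : ℕ} (h : l < l') (a : Fin (Mw l)) (a' : Fin (Mw l')) :
    idx l a < idx l' a' := by
  have h1 := idx_le l a
  have h2 := idx_gt l' a'
  have h3 : ww (l + 1) ≤ ww l' := ww_mono.monotone h
  omega

/-- the distance of two places -/
lemma idx_gap (l l' : ℕ) (a : Fin (Mw l)) (a' : Fin (Mw l')) (h : idx l a < idx l' a') :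
    idx l a + gap l' ≤ idx l' a' := by
  rcases lt_trichotomy l l' with h1 | h1 | h1
  · have h2 := idx_le l a
    have h3 : ww (l + 1) ≤ ww l' := ww_mono.monotone h1
    have h4 : ww l' + gap l' ≤ idx l' a' := by
      unfold idx
      have : gap l' * 1 ≤ gap l' * ((a' : ℕ) + 1) := Nat.mul_le_mul_left _ (by omega)
      omega
    omega
  · subst h1
    unfold idx at h ⊢
    have h2 : (a : ℕ) < a' := by
      by_contra hcon
      push Not at hcon
      have : gap l * ((a' : ℕ) + 1) ≤ gap l * ((a : ℕ) + 1) := Nat.mul_le_mul_left _ (by omega)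
      omega
    have h3 : gap l * ((a : ℕ) + 1 + 1) ≤ gap l * ((a' : ℕ) + 1) := Nat.mul_le_mul_left _ (by omega)
    rw [Nat.mul_add_one (gap l) ((a : ℕ) + 1)] at h3
    omega
  · have := idx_lt_of_lt h1 a' a
    omega

lemma ww_le (l : ℕ) : ww (l + 1) ≤ 2 ^ (2 ^ l + 3 * l + 9) := by
  have hMg : ∀ l, Mw l * gap l = 2 ^ (2 ^ l + 3 * l + 8) := by
    intro l
    unfold Mw gap mexp
    rw [← pow_add]
    congr 1
    ring
  induction l with
  | zero =>
    rw [ww, hMg]
    norm_num [ww]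
  | succ l ih =>
    rw [ww, hMg]
    have h1 : 2 ^ (2 ^ l + 3 * l + 9) ≤ 2 ^ (2 ^ (l + 1) + 3 * (l + 1) + 8) := by
      apply Nat.pow_le_pow_right (by norm_num)
      have : 2 ^ l ≤ 2 ^ (l + 1) := Nat.pow_le_pow_right (by norm_num) (by omega)
      omega
    have h2 : 2 ^ (2 ^ (l + 1) + 3 * (l + 1) + 9) = 2 * 2 ^ (2 ^ (l + 1) + 3 * (l + 1) + 8) := by
      rw [pow_succ]
      ring
    omega

/-- the logarithm of a place is smaller than twice the distance -/
lemma log_idx (l : ℕ) (a : Fin (Mw l)) (p : ℕ) (hp : 2 ≤ p) : Nat.log p (2 * idx l a) < 2 * gap l := by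
  have h1 := idx_le l a
  have h2 := ww_le l
  have h3 : 2 * idx l a ≤ 2 ^ (2 ^ l + 3 * l + 10) := by
    rw [pow_succ]
    omega
  have h4 : Nat.log p (2 * idx l a) ≤ Nat.log 2 (2 * idx l a) := Nat.log_anti_left (by norm_num) hp
  have h5 : Nat.log 2 (2 * idx l a) ≤ 2 ^ l + 3 * l + 10 := by
    calc Nat.log 2 (2 * idx l a) ≤ Nat.log 2 (2 ^ (2 ^ l + 3 * l + 10)) := Nat.log_mono_right h3
      _ = _ := Nat.log_pow (by norm_num) _
  have h6 : 2 ^ l + 3 * l + 10 < 2 * gap l := by
    unfold gap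
    rw [pow_add]
    have : l < 2 ^ l := Nat.lt_two_pow_self
    have : 1 ≤ 2 ^ l := Nat.one_le_two_pow
    omega
  omega

/-- uniform law on a window -/
noncomputable def U (l : ℕ) : Measure (Fin (Mw l)) := ((Mw l : ℝ≥0∞)⁻¹) • Measure.count

instance (l : ℕ) : IsProbabilityMeasure (U l) := by
  constructor
  unfold U
  rw [Measure.smul_apply, Measure.count_univ, smul_eq_mul]
  simp only [ENat.card_eq_coe_fintype_card, Fintype.card_fin]
  exact ENNReal.inv_mul_cancel (by exact_mod_cast (Mw_pos l).ne') (by simp)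

lemma U_single (l : ℕ) (a : Fin (Mw l)) : U l {a} = (Mw l : ℝ≥0∞)⁻¹ := by
  unfold U
  rw [Measure.smul_apply, Measure.count_singleton, smul_eq_mul, mul_one]

/-- the law of the places -/
noncomputable def μ : Measure (∀ l, Fin (Mw l)) := Measure.infinitePi U

instance : IsProbabilityMeasure μ := by
  unfold μ
  infer_instance

/-- the windows up to `n` -/
def SS (n : ℕ) : Finset ℕ := (range n).filter (fun l => ww (l + 1) ≤ n)

lemma mem_SS (n l : ℕ) : l ∈ SS n ↔ ww (l + 1) ≤ n := by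
  unfold SS
  rw [mem_filter, mem_range]
  have := le_ww (l + 1)
  constructor
  · exact fun h => h.2
  · intro h
    exact ⟨by omega, h⟩

/-- bound for the concentration -/
noncomputable def prn (n : ℕ) : ℝ := ∏ l ∈ SS n, (1 / (Mw l : ℝ))

lemma prn_nonneg (n : ℕ) : 0 ≤ prn n := Finset.prod_nonneg fun _ _ => by positivity

lemma prn_le (I n : ℕ) (h : ww I ≤ n) : prn n ≤ ∏ l ∈ range I, (1 / (Mw l : ℝ)) := by
  unfold prn
  have hsub : range I ⊆ SS n := by
    intro l hl
    rw [mem_range] at hl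
    have h1 : ww (l + 1) ≤ ww I := ww_mono.monotone hl
    rw [mem_SS]
    omega
  rw [← Finset.prod_sdiff hsub]
  apply mul_le_of_le_one_left (Finset.prod_nonneg fun _ _ => by positivity)
  apply Finset.prod_le_one (fun _ _ => by positivity)
  intro l _
  have : (1 : ℝ) ≤ Mw l := by exact_mod_cast Mw_pos l
  rw [div_le_one (by linarith)]
  exact this

lemma sum_mexp (i : ℕ) : ∑ l ∈ range i, mexp l + 1 = 2 ^ i + i * i + 4 * i := by
  induction i with
  | zero => simp
  | succ i ih =>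
    rw [sum_range_succ]
    have h1 : ∑ l ∈ range i, mexp l + mexp i + 1 = (∑ l ∈ range i, mexp l + 1) + mexp i := by ring
    rw [h1, ih, mexp, pow_succ]
    ring

lemma ratio (i : ℕ) : ((Mw i * gap i : ℕ) : ℝ) * ∏ l ∈ range i, (1 / (Mw l : ℝ)) ≤ 512 / 2 ^ i := by
  have h1 : ∏ l ∈ range i, (1 / (Mw l : ℝ)) = 1 / 2 ^ (∑ l ∈ range i, mexp l) := by
    rw [← one_div_pow, ← prod_pow_eq_pow_sum]
    refine prod_congr rfl fun l _ => ?_
    unfold Mw
    push_cast
    rw [one_div_pow]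
  have h2 : ((Mw i * gap i : ℕ) : ℝ) = 2 ^ (mexp i + (i + 3)) := by
    unfold Mw gap
    push_cast
    rw [← pow_add]
  rw [h1, h2, mul_one_div, div_le_div_iff₀ (by positivity) (by positivity), ← pow_add,
    show (512 : ℝ) = 2 ^ 9 by norm_num, ← pow_add]
  apply pow_le_pow_right₀ (by norm_num)
  have h3 := sum_mexp i
  unfold mexp at h3 ⊢
  have h4 : 0 ≤ i * i := Nat.zero_le _
  omega

lemma sum_windows (I : ℕ) : ∑ n ∈ range (ww I), prn n ≤ 1024 - 1024 / 2 ^ I := by
  induction I with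
  | zero => simp [ww]
  | succ I ih =>
    have h1 : ∑ n ∈ range (ww (I + 1)), prn n =
        ∑ n ∈ range (ww I), prn n + ∑ i ∈ range (Mw I * gap I), prn (ww I + i) := by
      rw [ww, sum_range_add]
    rw [h1]
    have h2 : ∑ i ∈ range (Mw I * gap I), prn (ww I + i) ≤ 512 / 2 ^ I := by
      calc _ ≤ ∑ _i ∈ range (Mw I * gap I), ∏ l ∈ range I, (1 / (Mw l : ℝ)) :=
            Finset.sum_le_sum fun i _ => prn_le I _ (by omega)
        _ ≤ _ := by
          rw [sum_const, card_range, nsmul_eq_mul]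
          exact ratio I
    have h3 : (1024 : ℝ) - 1024 / 2 ^ (I + 1) = 1024 - 1024 / 2 ^ I + 512 / 2 ^ I := by
      rw [pow_succ]
      field_simp
      ring
    linarith

lemma summable_prn : Summable prn := by
  apply summable_of_sum_range_le (c := 1024) prn_nonneg
  intro n
  calc ∑ i ∈ range n, prn i ≤ ∑ i ∈ range (ww n), prn i :=
        Finset.sum_le_sum_of_subset_of_nonneg (Finset.range_mono (le_ww n))
          fun i _ _ => prn_nonneg i
    _ ≤ 1024 - 1024 / 2 ^ n := sum_windows n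
    _ ≤ 1024 := by
        have : (0 : ℝ) ≤ 1024 / 2 ^ n := by positivity
        linarith

lemma tsum_prn : ∑' n, ENNReal.ofReal (prn n) ≠ ∞ := summable_prn.tsum_ofReal_ne_top

/-- the set of the places -/
def EE (ω : ∀ l, Fin (Mw l)) : Set ℕ := Set.range fun l => idx l (ω l)

/-- number of the places -/
lemma card_EE (ω : ∀ l, Fin (Mw l)) (n : ℕ) :
    {k : ℕ | k ∈ EE ω ∧ k < n}.ncard ≤ Nat.log 2 (Nat.log 2 n) + 2 := by
  have hsub : {k : ℕ | k ∈ EE ω ∧ k < n} ⊆
      (fun l => idx l (ω l)) '' (range (Nat.log 2 (Nat.log 2 n) + 2) : Set ℕ) := by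
    rintro i ⟨⟨l, hl⟩, h1⟩
    refine ⟨l, ?_, hl⟩
    rw [mem_coe, mem_range]
    rcases Nat.eq_zero_or_pos l with rfl | hl0
    · omega
    obtain ⟨k, rfl⟩ : ∃ k, l = k + 1 := ⟨l - 1, by omega⟩
    have h2 := idx_gt (k + 1) (ω (k + 1))
    simp only at hl
    have h3 : Mw k ≤ ww (k + 1) := by
      rw [ww]
      have := Nat.le_mul_of_pos_right (Mw k) (gap_pos k)
      omega
    have h4 : 2 ^ (2 ^ k) ≤ n := by
      have h5 : 2 ^ (2 ^ k) ≤ Mw k := by
        unfold Mw mexp
        exact Nat.pow_le_pow_right (by norm_num) (by omega)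
      omega
    have h5 : 2 ^ k ≤ Nat.log 2 n := Nat.le_log_of_pow_le (by norm_num) h4
    have h6 : k ≤ Nat.log 2 (Nat.log 2 n) := Nat.le_log_of_pow_le (by norm_num) h5
    omega
  calc _ ≤ ((fun l => idx l (ω l)) '' (range (Nat.log 2 (Nat.log 2 n) + 2) : Set ℕ)).ncard :=
        Set.ncard_le_ncard hsub ((Finset.finite_toSet _).image _)
    _ ≤ (range (Nat.log 2 (Nat.log 2 n) + 2) : Set ℕ).ncard := Set.ncard_image_le (Finset.finite_toSet _)
    _ = _ := by rw [Set.ncard_coe_finset, card_range]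

lemma idx_inj (ω : ∀ l, Fin (Mw l)) : Function.Injective fun l => idx l (ω l) := by
  intro l l' h
  simp only at h
  rcases lt_trichotomy l l' with h1 | h1 | h1
  · have := idx_lt_of_lt h1 (ω l) (ω l')
    omega
  · exact h1
  · have := idx_lt_of_lt h1 (ω l') (ω l)
    omega

end Pool.Agent.H608.Fd
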